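import Pool.Agent.H43.DPC.Targets

open MeasureTheory SchwartzMap Filter Topology
open scoped ENNReal ContDiff

namespace Pool.Agent.H43.DPC

noncomputable section

/-- expansion of the separated sum over graphs -/
private theorem GRB_expand {κ : Type} [DecidableEq κ] (n : ℕ) (c : κ → κ → Prop) [DecidableRel c]
    (hsym : ∀ k l, c k l → c l k) (S : Finset (Fin n → κ)) (F : (Fin n → κ) → ℝ) :
    ∑ k ∈ S.filter (fun k => ∀ i j, i ≠ j → ¬ c (k i) (k j)), F k =
      ∑ G ∈ (Finset.univ.filter (fun e : Fin n × Fin n => e.1 < e.2)).powerset,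
        (-1 : ℝ) ^ G.card * ∑ k ∈ S.filter (fun k => ∀ e ∈ G, c (k e.1) (k e.2)), F k := by
  classical
  set P := Finset.univ.filter (fun e : Fin n × Fin n => e.1 < e.2) with hP
  have h1 : ∀ k : Fin n → κ, (if (∀ i j, i ≠ j → ¬ c (k i) (k j)) then (1 : ℝ) else 0) =
      ∑ G ∈ P.powerset, (-1 : ℝ) ^ G.card * (if (∀ e ∈ G, c (k e.1) (k e.2)) then (1 : ℝ) else 0) := by
    intro k
    have h2 := Finset.prod_add (fun e : Fin n × Fin n => -(if c (k e.1) (k e.2) then (1 : ℝ) else 0))
      (fun _ => (1 : ℝ)) P
    have h3 : ∏ e ∈ P, (-(if c (k e.1) (k e.2) then (1 : ℝ) else 0) + 1) =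
        (if (∀ i j, i ≠ j → ¬ c (k i) (k j)) then (1 : ℝ) else 0) := by
      by_cases h : ∀ i j, i ≠ j → ¬ c (k i) (k j)
      · rw [if_pos h]
        apply Finset.prod_eq_one
        intro e he
        rw [hP, Finset.mem_filter] at he
        rw [if_neg (h _ _ he.2.ne)]
        simp
      · rw [if_neg h]
        push Not at h
        obtain ⟨i, j, hij, hc⟩ := h
        rcases lt_or_gt_of_ne hij with h' | h'
        · apply Finset.prod_eq_zero (i := (i, j))
          · simp [hP, h']
          · simp [hc]
        · apply Finset.prod_eq_zero (i := (j, i))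
          · simp [hP, h']
          · simp [hsym _ _ hc]
    rw [← h3, h2]
    refine Finset.sum_congr rfl (fun G _ => ?_)
    rw [Finset.prod_const_one, mul_one]
    by_cases h : ∀ e ∈ G, c (k e.1) (k e.2)
    · rw [if_pos h, mul_one, Finset.prod_congr rfl (fun e he => by rw [if_pos (h e he)]),
        Finset.prod_const]
    · rw [if_neg h, mul_zero]
      push Not at h
      obtain ⟨e, he, hc⟩ := h
      exact Finset.prod_eq_zero he (by simp [hc])
  calc ∑ k ∈ S.filter (fun k => ∀ i j, i ≠ j → ¬ c (k i) (k j)), F k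
      = ∑ k ∈ S, (if (∀ i j, i ≠ j → ¬ c (k i) (k j)) then (1 : ℝ) else 0) * F k := by
        rw [Finset.sum_filter]
        refine Finset.sum_congr rfl (fun k _ => ?_)
        split_ifs <;> simp
    _ = ∑ k ∈ S, ∑ G ∈ P.powerset,
          (-1 : ℝ) ^ G.card * ((if (∀ e ∈ G, c (k e.1) (k e.2)) then (1 : ℝ) else 0) * F k) := by
        refine Finset.sum_congr rfl (fun k _ => ?_)
        rw [h1 k, Finset.sum_mul]
        refine Finset.sum_congr rfl (fun G _ => ?_)
        ring
    _ = ∑ G ∈ P.powerset,
          (-1 : ℝ) ^ G.card * ∑ k ∈ S.filter (fun k => ∀ e ∈ G, c (k e.1) (k e.2)), F k := by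
        rw [Finset.sum_comm]
        refine Finset.sum_congr rfl (fun G _ => ?_)
        rw [← Finset.mul_sum, Finset.sum_filter]
        congr 1
        refine Finset.sum_congr rfl (fun k _ => ?_)
        split_ifs <;> simp

/-- resummation of the free indices -/
private theorem GRB_resum {κ : Type} [DecidableEq κ] (n : ℕ) (c : κ → κ → Prop) [DecidableRel c]
    (K : Finset κ) (k0 : κ) (G : Finset (Fin n × Fin n)) {W : Type} [AddCommGroup W] [Module ℝ W]
    (M : MultilinearMap ℝ (fun _ : Fin n => W) ℝ) (X : Fin n → κ → W) :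
    ∑ k ∈ (Fintype.piFinset (fun _ : Fin n => K)).filter (fun k => ∀ e ∈ G, c (k e.1) (k e.2)),
      M (fun i => X i (k i)) =
    ∑ k' ∈ (Fintype.piFinset (fun i : Fin n => if i ∈ touched G then K else {k0})).filter
      (fun k => ∀ e ∈ G, c (k e.1) (k e.2)),
      M (fun i => if i ∈ touched G then X i (k' i) else ∑ l ∈ K, X i l) := by
  classical
  have ht1 : ∀ e ∈ G, e.1 ∈ touched G := fun e he => by
    simp only [touched, Finset.mem_filter, Finset.mem_univ, true_and]; exact ⟨e.2, Or.inl he⟩
  have ht2 : ∀ e ∈ G, e.2 ∈ touched G := fun e he => by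
    simp only [touched, Finset.mem_filter, Finset.mem_univ, true_and]; exact ⟨e.1, Or.inr he⟩
  let π : (Fin n → κ) → (Fin n → κ) := fun k i => if i ∈ touched G then k i else k0
  rw [← Finset.sum_fiberwise_of_maps_to (g := π)
    (t := (Fintype.piFinset (fun i : Fin n => if i ∈ touched G then K else {k0})).filter
      (fun k => ∀ e ∈ G, c (k e.1) (k e.2)))]
  · refine Finset.sum_congr rfl (fun k' hk' => ?_)
    rw [Finset.mem_filter, Fintype.mem_piFinset] at hk'
    have h1 : (fun i => if i ∈ touched G then X i (k' i) else ∑ l ∈ K, X i l) =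
        fun i => ∑ l ∈ (if i ∈ touched G then ({k' i} : Finset κ) else K), X i l := by
      funext i
      split_ifs <;> simp
    rw [h1, MultilinearMap.map_sum_finset]
    refine Finset.sum_congr ?_ (fun _ _ => rfl)
    ext k
    simp only [Finset.mem_filter, Fintype.mem_piFinset]
    constructor
    · rintro ⟨⟨hk, hc⟩, hπ⟩ i
      by_cases hi : i ∈ touched G
      · rw [if_pos hi, Finset.mem_singleton]
        have := congrFun hπ i
        simpa [π, hi] using this
      · rw [if_neg hi]; exact hk i
    · intro hk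
      have hkT : ∀ i ∈ touched G, k i = k' i := by
        intro i hi
        have := hk i
        rw [if_pos hi, Finset.mem_singleton] at this
        exact this
      refine ⟨⟨fun i => ?_, fun e he => ?_⟩, ?_⟩
      · by_cases hi : i ∈ touched G
        · rw [hkT i hi]
          have := hk'.1 i
          rwa [if_pos hi] at this
        · have := hk i
          rwa [if_neg hi] at this
      · rw [hkT _ (ht1 e he), hkT _ (ht2 e he)]
        exact hk'.2 e he
      · funext i
        by_cases hi : i ∈ touched G
        · simp only [π, if_pos hi]; exact hkT i hi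
        · simp only [π, if_neg hi]
          have := hk'.1 i
          rw [if_neg hi, Finset.mem_singleton] at this
          exact this.symm
  · intro k hk
    rw [Finset.mem_filter, Fintype.mem_piFinset] at hk
    rw [Finset.mem_filter, Fintype.mem_piFinset]
    refine ⟨fun i => ?_, fun e he => ?_⟩
    · by_cases hi : i ∈ touched G
      · simp only [π, if_pos hi]; exact hk.1 i
      · simp only [π, if_neg hi]; exact Finset.mem_singleton_self _
    · simp only [π, if_pos (ht1 e he), if_pos (ht2 e he)]
      exact hk.2 e he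

/-- the arithmetic of one graph -/
private theorem GRB_arith (A : ℝ) (hA0 : 0 ≤ A) (Kc : ℕ) (hK : 1 ≤ Kc) (hs : A ^ 2 * Kc ≤ 1) (m : ℕ)
    (hm : 2 ≤ m) : A ^ m * (Kc : ℝ) ^ (m / 2) ≤ A ^ 2 * Kc := by
  have hKr : (1 : ℝ) ≤ Kc := by exact_mod_cast hK
  have hA1 : A ≤ 1 := by
    by_contra h
    push Not at h
    nlinarith
  have h0 : 0 ≤ A ^ 2 * Kc := by positivity
  have h1 : A ^ m * (Kc : ℝ) ^ (m / 2) = (A ^ 2 * Kc) ^ (m / 2) * A ^ (m % 2) := by
    conv_lhs => rw [← Nat.div_add_mod m 2]
    rw [pow_add, pow_mul, mul_pow]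
    have : (2 * (m / 2) + m % 2) / 2 = m / 2 := by omega
    rw [this]
    ring
  rw [h1]
  calc (A ^ 2 * Kc) ^ (m / 2) * A ^ (m % 2) ≤ (A ^ 2 * Kc) ^ (m / 2) * 1 := by
        gcongr
        exact pow_le_one₀ hA0 hA1
    _ ≤ (A ^ 2 * Kc) ^ 1 * 1 := by
        gcongr ?_ * 1
        exact pow_le_pow_of_le_one h0 hs (by omega)
    _ = A ^ 2 * Kc := by ring

theorem GRB (hGRA : T_GRA) : T_GRB := by
  intro κ _ n c _ hsym K B hB1 hB W _ _ M N hN0 hMN X A A' hA0 hA hA' hsmall
  classical
  have hRHS : 0 ≤ (2 : ℝ) ^ (n ^ 2) * (B : ℝ) ^ n * (max 1 A') ^ n * (A ^ 2 * K.card) := by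
    have : (0 : ℝ) ≤ max 1 A' := le_trans zero_le_one (le_max_left _ _)
    positivity
  rcases Nat.eq_zero_or_pos n with hn | hn
  · subst hn
    have h1 : ((Fintype.piFinset (fun _ : Fin 0 => K)).filter
        (fun k => ∀ i j, i ≠ j → ¬ c (k i) (k j))) = Finset.univ := by
      ext k
      simp
    rw [h1]
    have h2 : ∑ k : Fin 0 → κ, M (fun i => X i (k i)) = M (fun i => ∑ k ∈ K, X i k) := by
      rw [Fintype.sum_unique]
      congr 1
      funext i
      exact i.elim0
    rw [h2, sub_self, abs_zero]
    exact hRHS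
  rcases K.eq_empty_or_nonempty with hKe | ⟨k0, hk0⟩
  · subst hKe
    have : Nonempty (Fin n) := ⟨⟨0, hn⟩⟩
    have h1 : M (fun i => ∑ k ∈ (∅ : Finset κ), X i k) = 0 := by
      simp only [Finset.sum_empty]
      exact M.map_zero
    have h2 : (Fintype.piFinset (fun _ : Fin n => (∅ : Finset κ))) = ∅ := by
      ext k
      simp only [Fintype.mem_piFinset, Finset.notMem_empty, iff_false]
      intro h
      exact h ⟨0, hn⟩
    rw [h1, h2]
    simp
  · set P := Finset.univ.filter (fun e : Fin n × Fin n => e.1 < e.2) with hP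
    have hKc : 1 ≤ K.card := Finset.card_pos.2 ⟨k0, hk0⟩
    set Q := max 1 A' with hQ
    have hQ1 : 1 ≤ Q := le_max_left _ _
    have hexp := GRB_expand n c hsym (Fintype.piFinset (fun _ : Fin n => K))
      (fun k => M (fun i => X i (k i)))
    rw [hexp]
    have hemp : ∑ k ∈ (Fintype.piFinset (fun _ : Fin n => K)).filter
        (fun k => ∀ e ∈ (∅ : Finset (Fin n × Fin n)), c (k e.1) (k e.2)), M (fun i => X i (k i)) =
        M (fun i => ∑ k ∈ K, X i k) := by
      rw [MultilinearMap.map_sum_finset]
      refine Finset.sum_congr ?_ (fun _ _ => rfl)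
      ext k
      simp
    have hsplit : P.powerset = insert ∅ (P.powerset.erase ∅) := by
      rw [Finset.insert_erase]
      simp
    rw [hsplit, Finset.sum_insert (Finset.notMem_erase _ _), hemp]
    simp only [Finset.card_empty, pow_zero, one_mul]
    rw [sub_add_cancel_left, abs_neg]
    have hone : ∀ G ∈ P.powerset.erase ∅,
        |(-1 : ℝ) ^ G.card * ∑ k ∈ (Fintype.piFinset (fun _ : Fin n => K)).filter
          (fun k => ∀ e ∈ G, c (k e.1) (k e.2)), M (fun i => X i (k i))| ≤
        (B : ℝ) ^ n * Q ^ n * (A ^ 2 * K.card) := by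
      intro G hG
      rw [Finset.mem_erase, Finset.mem_powerset] at hG
      have hGn : G.Nonempty := Finset.nonempty_iff_ne_empty.2 hG.1
      have hGe : ∀ e ∈ G, e.1 ≠ e.2 := by
        intro e he
        have := hG.2 he
        rw [hP, Finset.mem_filter] at this
        exact this.2.ne
      obtain ⟨hm, hcount⟩ := hGRA κ n c hsym K k0 hk0 B hB1 hB G hGe hGn
      rw [abs_mul, abs_pow, abs_neg, abs_one, one_pow, one_mul,
        GRB_resum n c K k0 G M X]
      refine (Finset.abs_sum_le_sum_abs _ _).trans ?_
      have hterm : ∀ k' ∈ (Fintype.piFinset (fun i : Fin n => if i ∈ touched G then K else {k0})).filter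
          (fun k => ∀ e ∈ G, c (k e.1) (k e.2)),
          |M (fun i => if i ∈ touched G then X i (k' i) else ∑ l ∈ K, X i l)| ≤
            A ^ (touched G).card * Q ^ n := by
        intro k' hk'
        rw [Finset.mem_filter, Fintype.mem_piFinset] at hk'
        refine (hMN _).trans ?_
        calc ∏ i, N (if i ∈ touched G then X i (k' i) else ∑ l ∈ K, X i l)
            ≤ ∏ i, (if i ∈ touched G then A else Q) := by
              refine Finset.prod_le_prod (fun i _ => hN0 _) (fun i _ => ?_)
              by_cases hi : i ∈ touched G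
              · rw [if_pos hi, if_pos hi]
                refine hA i _ ?_
                have := hk'.1 i
                rwa [if_pos hi] at this
              · rw [if_neg hi, if_neg hi]
                exact (hA' i).trans (le_max_right _ _)
          _ = A ^ (touched G).card * Q ^ (n - (touched G).card) := by
              rw [Finset.prod_ite, Finset.prod_const, Finset.prod_const]
              congr 2
              · congr 1
                ext i; simp
              · have h1 : (Finset.univ.filter (fun i => i ∉ touched G)) = (touched G)ᶜ := by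
                  ext i; simp
                rw [h1, Finset.card_compl, Fintype.card_fin]
          _ ≤ A ^ (touched G).card * Q ^ n :=
              mul_le_mul_of_nonneg_left (pow_le_pow_right₀ hQ1 (Nat.sub_le _ _)) (pow_nonneg hA0 _)
      refine (Finset.sum_le_sum hterm).trans ?_
      rw [Finset.sum_const, nsmul_eq_mul]
      have hQ0 : 0 ≤ Q := le_trans zero_le_one hQ1
      calc _ ≤ ((B : ℝ) ^ n * (K.card : ℝ) ^ ((touched G).card / 2)) *
            (A ^ (touched G).card * Q ^ n) :=
            mul_le_mul_of_nonneg_right hcount (mul_nonneg (pow_nonneg hA0 _) (pow_nonneg hQ0 _))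
        _ = (B : ℝ) ^ n * Q ^ n * (A ^ (touched G).card * (K.card : ℝ) ^ ((touched G).card / 2)) := by
            ring
        _ ≤ (B : ℝ) ^ n * Q ^ n * (A ^ 2 * K.card) :=
            mul_le_mul_of_nonneg_left (GRB_arith A hA0 K.card hKc hsmall _ hm)
              (mul_nonneg (pow_nonneg (Nat.cast_nonneg _) _) (pow_nonneg hQ0 _))
    refine (Finset.abs_sum_le_sum_abs _ _).trans ((Finset.sum_le_sum hone).trans ?_)
    rw [Finset.sum_const, nsmul_eq_mul]
    have hcardP : ((P.powerset.erase ∅).card : ℝ) ≤ 2 ^ (n ^ 2) := by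
      have h1 : (P.powerset.erase ∅).card ≤ 2 ^ (n ^ 2) := by
        calc (P.powerset.erase ∅).card ≤ P.powerset.card := Finset.card_erase_le
          _ = 2 ^ P.card := Finset.card_powerset _
          _ ≤ 2 ^ (n ^ 2) := by
              apply Nat.pow_le_pow_right (by norm_num)
              calc P.card ≤ (Finset.univ : Finset (Fin n × Fin n)).card := Finset.card_filter_le _ _
                _ = n ^ 2 := by simp [sq]
      exact_mod_cast h1
    have hQ0 : 0 ≤ Q := le_trans zero_le_one hQ1
    calc _ ≤ (2 : ℝ) ^ (n ^ 2) * ((B : ℝ) ^ n * Q ^ n * (A ^ 2 * K.card)) :=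
          mul_le_mul_of_nonneg_right hcardP
            (mul_nonneg (mul_nonneg (pow_nonneg (Nat.cast_nonneg _) _) (pow_nonneg hQ0 _))
              (mul_nonneg (sq_nonneg _) (Nat.cast_nonneg _)))
      _ = _ := by ring

end

end Pool.Agent.H43.DPC
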