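import Pool.Agent.H43.DPC.Targets

open MeasureTheory SchwartzMap Filter Topology
open scoped ENNReal ContDiff BoundedContinuousFunction

namespace Pool.Agent.H43.DPC

noncomputable section

variable {d : ℕ}

private theorem INT_deriv_bound (g : S d) (l : ℕ) :
    ∃ C : ℝ, 0 ≤ C ∧ ∀ x, ‖iteratedFDeriv ℝ l g x‖ ≤ C := by
  obtain ⟨C, hC⟩ := g.decay 0 l
  refine ⟨max C 0, le_max_right _ _, fun x => ?_⟩
  have := hC.2 x
  simp only [pow_zero, one_mul] at this
  exact this.trans (le_max_left _ _)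

private theorem INT_cont_iter (g : S d) (l : ℕ) : Continuous (iteratedFDeriv ℝ l g) :=
  (g.smooth ⊤).continuous_iteratedFDeriv (mod_cast le_top)

private theorem INT_f_integrable (f : S d) : Integrable f := f.integrable

private theorem INT_integrable_iter (f g : S d) (l : ℕ) (x : V d) :
    Integrable (fun y => f y • iteratedFDeriv ℝ l g (x - y)) := by
  obtain ⟨C, hC0, hC⟩ := INT_deriv_bound g l
  refine Integrable.mono' (g := fun y => ‖f y‖ * C) (f.integrable.norm.mul_const C) ?_ ?_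
  · exact (f.continuous.smul ((INT_cont_iter g l).comp (by fun_prop))).aestronglyMeasurable
  · refine Eventually.of_forall (fun y => ?_)
    rw [norm_smul]
    exact mul_le_mul_of_nonneg_left (hC _) (norm_nonneg _)

private theorem INT_hasFDeriv_gen {G : Type*} [NormedAddCommGroup G] [NormedSpace ℝ G] (f : S d)
    (u : V d → G) (hu : Differentiable ℝ u) (huc : Continuous (fderiv ℝ u)) (C C' : ℝ)
    (hC : ∀ x, ‖u x‖ ≤ C) (hC' : ∀ x, ‖fderiv ℝ u x‖ ≤ C') (x : V d) :
    HasFDerivAt (fun x => ∫ y, f y • u (x - y)) (∫ y, f y • fderiv ℝ u (x - y)) x := by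
  have hint : ∀ x, Integrable (fun y => f y • u (x - y)) := by
    intro x
    refine Integrable.mono' (g := fun y => ‖f y‖ * C) (f.integrable.norm.mul_const C) ?_ ?_
    · exact (f.continuous.smul (hu.continuous.comp (by fun_prop))).aestronglyMeasurable
    · refine Eventually.of_forall (fun y => ?_)
      rw [norm_smul]
      exact mul_le_mul_of_nonneg_left (hC _) (norm_nonneg _)
  refine hasFDerivAt_integral_of_dominated_of_fderiv_le (s := Set.univ)
    (F := fun x y => f y • u (x - y))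
    (F' := fun x y => f y • fderiv ℝ u (x - y))
    (bound := fun y => ‖f y‖ * C') Filter.univ_mem ?_ (hint x) ?_ ?_
    (f.integrable.norm.mul_const C') ?_
  · exact Eventually.of_forall (fun x => (hint x).aestronglyMeasurable)
  · exact (f.continuous.smul (huc.comp (by fun_prop))).aestronglyMeasurable
  · refine Eventually.of_forall (fun y x _ => ?_)
    rw [norm_smul]
    exact mul_le_mul_of_nonneg_left (hC' _) (norm_nonneg _)
  · refine Eventually.of_forall (fun y x _ => ?_)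
    have h1 : HasFDerivAt (fun z => u (z - y)) (fderiv ℝ u (x - y)) x := by
      have h2 := (hu (x - y)).hasFDerivAt
      have h3 : HasFDerivAt (fun z : V d => z - y) (ContinuousLinearMap.id ℝ (V d)) x :=
        (hasFDerivAt_id x).sub_const y
      have := h2.comp x h3
      rwa [ContinuousLinearMap.comp_id] at this
    exact h1.const_smul (f y)

private theorem INT_hasFDeriv (f g : S d) (l : ℕ) (x : V d) :
    HasFDerivAt (fun x => ∫ y, f y • iteratedFDeriv ℝ l g (x - y))
      (∫ y, f y • fderiv ℝ (iteratedFDeriv ℝ l g) (x - y)) x := by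
  obtain ⟨C, hC0, hC⟩ := INT_deriv_bound g l
  obtain ⟨C', hC0', hC'⟩ := INT_deriv_bound g (l + 1)
  have hdiff : Differentiable ℝ (iteratedFDeriv ℝ l g) :=
    (g.smooth ⊤).differentiable_iteratedFDeriv (by exact_mod_cast WithTop.coe_lt_top _)
  have hcf : Continuous (fderiv ℝ (iteratedFDeriv ℝ l g)) := by
    rw [fderiv_iteratedFDeriv]
    exact (LinearIsometryEquiv.continuous _).comp (INT_cont_iter g (l + 1))
  exact INT_hasFDeriv_gen f (iteratedFDeriv ℝ l g) hdiff hcf C C' hC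
    (fun x => by rw [norm_fderiv_iteratedFDeriv]; exact hC' x) x

private theorem INT_lie {G G' : Type*} [NormedAddCommGroup G] [NormedSpace ℝ G]
    [NormedAddCommGroup G'] [NormedSpace ℝ G'] (e : G ≃ₗᵢ[ℝ] G') (u : V d → G) :
    e (∫ y, u y) = ∫ y, e (u y) :=
  (e.toContinuousLinearEquiv.integral_comp_comm u).symm

private theorem INT_iter (f g h : S d) (hh : ∀ x, h x = ∫ y, f y * g (x - y)) (l : ℕ) :
    ∀ x, iteratedFDeriv ℝ l h x = ∫ y, f y • iteratedFDeriv ℝ l g (x - y) := by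
  induction l with
  | zero =>
    intro x
    have h1 : (fun y => f y • iteratedFDeriv ℝ 0 g (x - y)) = fun y =>
        (continuousMultilinearCurryFin0 ℝ (V d) ℝ).symm (f y * g (x - y)) := by
      funext y
      rw [iteratedFDeriv_zero_eq_comp, Function.comp_apply, ← smul_eq_mul, map_smul]
    rw [h1, iteratedFDeriv_zero_eq_comp, Function.comp_apply, hh x]
    exact INT_lie (continuousMultilinearCurryFin0 ℝ (V d) ℝ).symm (fun y => f y * g (x - y))
  | succ l ih =>
    intro x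
    have h1 : iteratedFDeriv ℝ l h = fun x => ∫ y, f y • iteratedFDeriv ℝ l g (x - y) := funext ih
    have h2 : fderiv ℝ (iteratedFDeriv ℝ l h) x =
        ∫ y, f y • fderiv ℝ (iteratedFDeriv ℝ l g) (x - y) := by
      rw [h1]
      exact (INT_hasFDeriv f g l x).fderiv
    rw [iteratedFDeriv_succ_eq_comp_left, Function.comp_apply, h2]
    refine (INT_lie (continuousMultilinearCurryLeftEquiv ℝ (fun _ : Fin (l + 1) => V d) ℝ).symm
      (fun y => f y • fderiv ℝ (iteratedFDeriv ℝ l g) (x - y))).trans ?_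
    refine integral_congr_ae (Eventually.of_forall (fun y => ?_))
    simp only
    rw [iteratedFDeriv_succ_eq_comp_left, Function.comp_apply]
    exact map_smul (continuousMultilinearCurryLeftEquiv ℝ (fun _ : Fin (l + 1) => V d) ℝ).symm _ _

/-- components -/
private def INT_compo (k l : ℕ) (u : S d) : V d →ᵇ (V d [×l]→L[ℝ] ℝ) :=
  BoundedContinuousFunction.ofNormedAddCommGroup (fun x => (‖x‖ ^ k) • iteratedFDeriv ℝ l u x)
    (by
      have := INT_cont_iter u l
      fun_prop) (SchwartzMap.seminorm ℝ k l u) (fun x => by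
      rw [norm_smul, norm_pow, norm_norm]
      exact SchwartzMap.le_seminorm ℝ k l u x)

private theorem INT_compo_apply (k l : ℕ) (u : S d) (x : V d) :
    INT_compo k l u x = (‖x‖ ^ k) • iteratedFDeriv ℝ l u x := rfl

private theorem INT_compo_add (k l : ℕ) (u v : S d) :
    INT_compo k l (u + v) = INT_compo k l u + INT_compo k l v := by
  ext1 x
  rw [BoundedContinuousFunction.coe_add, Pi.add_apply, INT_compo_apply, INT_compo_apply,
    INT_compo_apply, ← smul_add]
  congr 1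
  have : (⇑(u + v) : V d → ℝ) = ⇑u + ⇑v := rfl
  rw [this, iteratedFDeriv_add_apply ((u.smooth ⊤).contDiffAt.of_le (mod_cast le_top))
    ((v.smooth ⊤).contDiffAt.of_le (mod_cast le_top))]

private theorem INT_compo_smul (k l : ℕ) (c : ℝ) (u : S d) :
    INT_compo k l (c • u) = c • INT_compo k l u := by
  ext1 x
  change (‖x‖ ^ k) • iteratedFDeriv ℝ l (⇑(c • u)) x = c • ((‖x‖ ^ k) • iteratedFDeriv ℝ l u x)
  rw [smul_comm]
  congr 1
  have : (⇑(c • u) : V d → ℝ) = c • ⇑u := rfl
  rw [this, iteratedFDeriv_const_smul_apply ((u.smooth ⊤).contDiffAt.of_le (mod_cast le_top))]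

private abbrev INT_Z (d m : ℕ) : Type :=
  ∀ i : Fin (m + 1) × Fin (m + 1), (V d →ᵇ (V d [×(i.2 : ℕ)]→L[ℝ] ℝ))

private def INT_Y (d m : ℕ) : Type := INT_Z d m

private instance (d m : ℕ) : NormedAddCommGroup (INT_Y d m) :=
  inferInstanceAs (NormedAddCommGroup (INT_Z d m))

private instance (d m : ℕ) : NormedSpace ℝ (INT_Y d m) :=
  inferInstanceAs (NormedSpace ℝ (INT_Z d m))

private instance (d m : ℕ) : CompleteSpace (INT_Y d m) :=
  inferInstanceAs (CompleteSpace (INT_Z d m))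

private def INT_mk (m : ℕ) (z : INT_Z d m) : INT_Y d m := z

private def INT_J (m : ℕ) : S d →ₗ[ℝ] INT_Y d m where
  toFun u := INT_mk m (fun i => INT_compo (i.1 : ℕ) (i.2 : ℕ) u)
  map_add' u v := by
    have : (fun i : Fin (m + 1) × Fin (m + 1) => INT_compo (i.1 : ℕ) (i.2 : ℕ) (u + v)) =
      (fun i : Fin (m + 1) × Fin (m + 1) => INT_compo (i.1 : ℕ) (i.2 : ℕ) u + INT_compo (i.1 : ℕ) (i.2 : ℕ) v) := by
      funext i; rw [INT_compo_add]
    rw [this]
    rfl
  map_smul' c u := by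
    have : (fun i : Fin (m + 1) × Fin (m + 1) => INT_compo (i.1 : ℕ) (i.2 : ℕ) (c • u)) =
      (fun i : Fin (m + 1) × Fin (m + 1) => c • INT_compo (i.1 : ℕ) (i.2 : ℕ) u) := by
      funext i; rw [INT_compo_smul]
    rw [this]
    rfl

private theorem INT_norm_J_le (m : ℕ) (u : S d) (r : ℝ) (hr : 0 ≤ r)
    (h : ∀ k ≤ m, ∀ l ≤ m, ∀ x, ‖x‖ ^ k * ‖iteratedFDeriv ℝ l u x‖ ≤ r) : ‖INT_J m u‖ ≤ r := by
  have h1 : ‖(fun i => INT_compo (i.1 : ℕ) (i.2 : ℕ) u : INT_Z d m)‖ ≤ r := by
    rw [pi_norm_le_iff_of_nonneg hr]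
    intro i
    rw [BoundedContinuousFunction.norm_le hr]
    intro x
    rw [INT_compo_apply, norm_smul, norm_pow, norm_norm]
    exact h _ (Nat.le_of_lt_succ i.1.2) _ (Nat.le_of_lt_succ i.2.2) x
  exact h1

private theorem INT_le_norm_J (m : ℕ) (u : S d) (k l : ℕ) (hk : k ≤ m) (hl : l ≤ m) (x : V d) :
    ‖x‖ ^ k * ‖iteratedFDeriv ℝ l u x‖ ≤ ‖INT_J m u‖ := by
  have h3 : ‖INT_compo k l u‖ ≤ ‖(fun i => INT_compo (i.1 : ℕ) (i.2 : ℕ) u : INT_Z d m)‖ :=
    norm_le_pi_norm (fun i => INT_compo (i.1 : ℕ) (i.2 : ℕ) u : INT_Z d m)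
      (⟨k, Nat.lt_succ_of_le hk⟩, ⟨l, Nat.lt_succ_of_le hl⟩)
  have h4 := (INT_compo k l u).norm_coe_le_norm x
  rw [INT_compo_apply, norm_smul, norm_pow, norm_norm] at h4
  exact h4.trans h3

private def INT_ev (m : ℕ) (i : Fin (m + 1) × Fin (m + 1)) (x : V d) :
    INT_Y d m →L[ℝ] (V d [×(i.2 : ℕ)]→L[ℝ] ℝ) :=
  LinearMap.mkContinuous
    { toFun := fun z => (z : INT_Z d m) i x
      map_add' := fun _ _ => rfl
      map_smul' := fun _ _ => rfl } 1 (fun z => by
      rw [one_mul]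
      change ‖(z : INT_Z d m) i x‖ ≤ ‖(z : INT_Z d m)‖
      exact (((z : INT_Z d m) i).norm_coe_le_norm x).trans (norm_le_pi_norm (z : INT_Z d m) i))

private theorem INT_ev_J (m : ℕ) (i : Fin (m + 1) × Fin (m + 1)) (x : V d) (u : S d) :
    INT_ev m i x (INT_J m u) = (‖x‖ ^ (i.1 : ℕ)) • iteratedFDeriv ℝ i.2 u x := rfl

private theorem INT_Y_ext (m : ℕ) (z w : INT_Y d m) (h : ∀ i x, INT_ev m i x z = INT_ev m i x w) :
    z = w := by
  have : (z : INT_Z d m) = (w : INT_Z d m) := by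
    funext i
    ext1 x
    exact h i x
  exact this

private theorem INT_pm_le (m : ℕ) (u : S d) : pm m u ≤ ‖INT_J m u‖ := by
  refine Seminorm.finset_sup_apply_le (norm_nonneg _) (fun i hi => ?_)
  rw [Finset.mem_Iic] at hi
  rw [schwartzSeminormFamily_apply]
  exact SchwartzMap.seminorm_le_bound ℝ _ _ u (norm_nonneg _)
    (fun x => INT_le_norm_J m u i.1 i.2 hi.1 hi.2 x)

private theorem INT_trans_iter (g : S d) (y : V d) (l : ℕ) (x : V d) :
    iteratedFDeriv ℝ l (trans y g) x = iteratedFDeriv ℝ l g (x - y) := by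
  have : (⇑(trans y g) : V d → ℝ) = fun z => g (z - y) := rfl
  rw [this, iteratedFDeriv_comp_sub]

private theorem INT_weight (a b : V d) (k : ℕ) :
    ‖a + b‖ ^ k ≤ (1 + ‖a‖) ^ k * (1 + ‖b‖) ^ k := by
  rw [← mul_pow]
  apply pow_le_pow_left₀ (norm_nonneg _)
  have := norm_add_le a b
  nlinarith [norm_nonneg a, norm_nonneg b]

private theorem INT_growth (m : ℕ) (g : S d) :
    ∃ C : ℝ, 0 ≤ C ∧ ∀ y, ‖INT_J m (trans y g)‖ ≤ C * (1 + ‖y‖) ^ m := by
  refine ⟨2 ^ m * pm m g, mul_nonneg (by positivity) (apply_nonneg _ _), fun y => ?_⟩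
  have hC : 0 ≤ 2 ^ m * pm m g := mul_nonneg (by positivity) (apply_nonneg _ _)
  refine INT_norm_J_le m _ _ (by positivity) (fun k hk l hl x => ?_)
  rw [INT_trans_iter]
  have h1 := SchwartzMap.one_add_le_sup_seminorm_apply (𝕜 := ℝ) (m := (m, m)) hk hl g (x - y)
  have h2 : ‖x‖ ^ k ≤ (1 + ‖x - y‖) ^ k * (1 + ‖y‖) ^ k := by
    have := INT_weight (x - y) y k
    rwa [sub_add_cancel] at this
  calc ‖x‖ ^ k * ‖iteratedFDeriv ℝ l g (x - y)‖
      ≤ ((1 + ‖x - y‖) ^ k * (1 + ‖y‖) ^ k) * ‖iteratedFDeriv ℝ l g (x - y)‖ :=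
        mul_le_mul_of_nonneg_right h2 (norm_nonneg _)
    _ = ((1 + ‖x - y‖) ^ k * ‖iteratedFDeriv ℝ l g (x - y)‖) * (1 + ‖y‖) ^ k := by
        ring
    _ ≤ (2 ^ m * pm m g) * (1 + ‖y‖) ^ m := by
        apply mul_le_mul h1 _ (by positivity) hC
        exact pow_le_pow_right₀ (by linarith [norm_nonneg y]) hk

private theorem INT_cont (m : ℕ) (g : S d) : Continuous (fun y => INT_J m (trans y g)) := by
  rw [continuous_iff_continuousAt]
  intro y0
  set R : ℝ := ‖y0‖ + 1 with hR
  have hR0 : 0 ≤ R := by positivity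
  set C0 : ℝ := 2 ^ (m + 1) * pm (m + 1) g with hC0
  have hC00 : 0 ≤ C0 := mul_nonneg (by positivity) (apply_nonneg _ _)
  have key : ∀ k ≤ m, ∀ l ≤ m, ∀ y ∈ Metric.ball y0 1, ∀ x : V d,
      ‖x‖ ^ k * ‖iteratedFDeriv ℝ l g (x - y) - iteratedFDeriv ℝ l g (x - y0)‖ ≤
        C0 * (1 + R) ^ m * ‖y - y0‖ := by
    intro k hkm l hlm y hy x
    have hdiff : Differentiable ℝ (iteratedFDeriv ℝ l g) :=
      (g.smooth ⊤).differentiable_iteratedFDeriv (by exact_mod_cast WithTop.coe_lt_top _)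
    have hseg := (convex_segment (𝕜 := ℝ) (x - y0) (x - y)).norm_image_sub_le_of_norm_hasFDerivWithin_le
      (f := iteratedFDeriv ℝ l g) (f' := fun z => fderiv ℝ (iteratedFDeriv ℝ l g) z)
      (C := C0 * (1 + R) ^ m / (1 + ‖x‖) ^ k)
      (fun z _ => (hdiff z).hasFDerivAt.hasFDerivWithinAt) ?_
      (left_mem_segment ℝ _ _) (right_mem_segment ℝ _ _)
    · have h1 : ‖x - y - (x - y0)‖ = ‖y - y0‖ := by
        rw [show x - y - (x - y0) = -(y - y0) by abel, norm_neg]
      rw [h1] at hseg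
      have hx : ‖x‖ ^ k ≤ (1 + ‖x‖) ^ k := pow_le_pow_left₀ (norm_nonneg _) (by linarith) _
      have hp : 0 < (1 + ‖x‖) ^ k := by positivity
      calc ‖x‖ ^ k * ‖iteratedFDeriv ℝ l g (x - y) - iteratedFDeriv ℝ l g (x - y0)‖
          ≤ (1 + ‖x‖) ^ k * (C0 * (1 + R) ^ m / (1 + ‖x‖) ^ k * ‖y - y0‖) :=
            mul_le_mul hx hseg (norm_nonneg _) hp.le
        _ = C0 * (1 + R) ^ m * ‖y - y0‖ := by field_simp
    · intro z hz
      rw [norm_fderiv_iteratedFDeriv, le_div_iff₀ (by positivity)]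
      have hz' : ‖x - z‖ ≤ R := by
        have hmem : x - z ∈ segment ℝ y0 y := by
          obtain ⟨a, b, ha, hb, hab, rfl⟩ := hz
          refine ⟨a, b, ha, hb, hab, ?_⟩
          have : x = a • x + b • x := by rw [← add_smul, hab, one_smul]
          calc a • y0 + b • y = (a • x + b • x) - (a • (x - y0) + b • (x - y)) := by
                rw [smul_sub, smul_sub]; abel
            _ = x - (a • (x - y0) + b • (x - y)) := by rw [← this]
        have hball : segment ℝ y0 y ⊆ Metric.closedBall (0 : V d) R := by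
          apply (convex_closedBall (0 : V d) R).segment_subset
          · rw [mem_closedBall_zero_iff]; linarith
          · rw [mem_closedBall_zero_iff]
            have := norm_sub_norm_le y y0
            rw [Metric.mem_ball, dist_eq_norm] at hy
            linarith
        have := hball hmem
        rwa [mem_closedBall_zero_iff] at this
      have h2 : (1 + ‖x‖) ^ k ≤ (1 + ‖z‖) ^ k * (1 + R) ^ m := by
        have h3 : ‖x‖ ≤ ‖z‖ + ‖x - z‖ := by
          calc ‖x‖ = ‖z + (x - z)‖ := by congr 1; abel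
            _ ≤ _ := norm_add_le _ _
        calc (1 + ‖x‖) ^ k ≤ ((1 + ‖z‖) * (1 + R)) ^ k := by
              apply pow_le_pow_left₀ (by positivity)
              nlinarith [norm_nonneg z, norm_nonneg (x - z)]
          _ = (1 + ‖z‖) ^ k * (1 + R) ^ k := mul_pow _ _ _
          _ ≤ (1 + ‖z‖) ^ k * (1 + R) ^ m := by
              apply mul_le_mul_of_nonneg_left _ (by positivity)
              exact pow_le_pow_right₀ (by linarith) hkm
      have h4 := SchwartzMap.one_add_le_sup_seminorm_apply (𝕜 := ℝ) (m := (m + 1, m + 1))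
        (k := k) (n := l + 1) (by simp; omega) (by simp; omega) g z
      calc ‖iteratedFDeriv ℝ (l + 1) g z‖ * (1 + ‖x‖) ^ k
          ≤ ‖iteratedFDeriv ℝ (l + 1) g z‖ * ((1 + ‖z‖) ^ k * (1 + R) ^ m) :=
            mul_le_mul_of_nonneg_left h2 (norm_nonneg _)
        _ = ((1 + ‖z‖) ^ k * ‖iteratedFDeriv ℝ (l + 1) g z‖) * (1 + R) ^ m := by ring
        _ ≤ C0 * (1 + R) ^ m := by
            apply mul_le_mul_of_nonneg_right h4 (by positivity)
  rw [ContinuousAt, tendsto_iff_norm_sub_tendsto_zero]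
  refine squeeze_zero' (g := fun y => C0 * (1 + R) ^ m * ‖y - y0‖)
    (Eventually.of_forall (fun _ => norm_nonneg _)) ?_ ?_
  · filter_upwards [Metric.ball_mem_nhds y0 one_pos] with y hy
    rw [← map_sub]
    refine INT_norm_J_le m _ _ (by positivity) (fun k hk l hl x => ?_)
    have h1 : iteratedFDeriv ℝ l (trans y g - trans y0 g) x =
        iteratedFDeriv ℝ l g (x - y) - iteratedFDeriv ℝ l g (x - y0) := by
      rw [← INT_trans_iter, ← INT_trans_iter]
      have : (⇑(trans y g - trans y0 g) : V d → ℝ) = ⇑(trans y g) - ⇑(trans y0 g) := rfl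
      rw [this, iteratedFDeriv_sub_apply (((trans y g).smooth ⊤).contDiffAt.of_le (mod_cast le_top))
        (((trans y0 g).smooth ⊤).contDiffAt.of_le (mod_cast le_top))]
    rw [h1]
    exact key k hk l hl y hy x
  · have h1 : Tendsto (fun y => C0 * (1 + R) ^ m * ‖y - y0‖) (𝓝 y0)
        (𝓝 (C0 * (1 + R) ^ m * ‖y0 - y0‖)) := by
      apply Continuous.tendsto
      fun_prop
    simpa using h1

/-- extension of a continuous functional to the Banach space -/
private theorem INT_extend (L : S d →L[ℝ] ℝ) :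
    ∃ (m : ℕ) (Lt : INT_Y d m →L[ℝ] ℝ), ∀ u, Lt (INT_J m u) = L u := by
  classical
  obtain ⟨s, C, hC, hb⟩ := Seminorm.bound_of_continuous (schwartz_withSeminorms ℝ (V d) ℝ)
    ((normSeminorm ℝ ℝ).comp L.toLinearMap) (by
      change Continuous (fun u => ‖L u‖)
      exact L.continuous.norm)
  set m : ℕ := s.sup (fun i => max i.1 i.2) with hm
  have hsub : s ⊆ Finset.Iic (m, m) := by
    intro i hi
    rw [Finset.mem_Iic]
    have h1 : max i.1 i.2 ≤ m := Finset.le_sup (f := fun i : ℕ × ℕ => max i.1 i.2) hi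
    exact ⟨(le_max_left _ _).trans h1, (le_max_right _ _).trans h1⟩
  have hL : ∀ u, ‖L u‖ ≤ (C : ℝ) * ‖INT_J m u‖ := by
    intro u
    have h1 := hb u
    have h2 : (s.sup (schwartzSeminormFamily ℝ (V d) ℝ)) u ≤ pm m u :=
      Seminorm.le_def.1 (Finset.sup_mono hsub) u
    calc ‖L u‖ ≤ (C : ℝ) * (s.sup (schwartzSeminormFamily ℝ (V d) ℝ)) u := h1
      _ ≤ (C : ℝ) * ‖INT_J m u‖ :=
        mul_le_mul_of_nonneg_left (h2.trans (INT_pm_le m u)) C.2
  have hinj : Function.Injective (INT_J (d := d) m) := by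
    rw [← LinearMap.ker_eq_bot, LinearMap.ker_eq_bot']
    intro u hu
    ext x
    have h1 := SchwartzMap.norm_le_seminorm ℝ u x
    have h2 : SchwartzMap.seminorm ℝ 0 0 u ≤ pm m u := by
      have : (0, 0) ∈ Finset.Iic (m, m) := by simp
      exact Seminorm.le_def.1 (Finset.le_sup (f := schwartzSeminormFamily ℝ (V d) ℝ) this) u
    have h3 := INT_pm_le m u
    rw [hu, norm_zero] at h3
    have h4 : ‖u x‖ ≤ 0 := h1.trans (h2.trans h3)
    have h5 : u x = 0 := norm_le_zero_iff.1 h4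
    rw [h5]
    rfl
  let e := LinearEquiv.ofInjective (INT_J (d := d) m) hinj
  let L0 : (LinearMap.range (INT_J (d := d) m)) →ₗ[ℝ] ℝ := L.toLinearMap.comp e.symm.toLinearMap
  have hL0 : ∀ z, ‖L0 z‖ ≤ (C : ℝ) * ‖z‖ := by
    intro z
    have h1 := hL (e.symm z)
    have h2 : INT_J m (e.symm z) = (z : INT_Y d m) := by
      have := LinearEquiv.apply_symm_apply e z
      have h3 := congrArg Subtype.val this
      simpa [e] using h3
    rw [h2] at h1
    exact h1
  obtain ⟨Lt, hLt, _⟩ := exists_extension_norm_eq (LinearMap.range (INT_J (d := d) m))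
    (LinearMap.mkContinuous L0 C hL0)
  refine ⟨m, Lt, fun u => ?_⟩
  have h1 := hLt (e u)
  have h2 : ((e u : LinearMap.range (INT_J (d := d) m)) : INT_Y d m) = INT_J m u := rfl
  rw [h2] at h1
  rw [h1]
  change L (e.symm (e u)) = L u
  rw [LinearEquiv.symm_apply_apply]

theorem INT : T_INT := by
  intro d L f g h hh
  obtain ⟨m, Lt, hLt⟩ := INT_extend L
  obtain ⟨C, hC0, hC⟩ := INT_growth m g
  have hcJ := INT_cont m g
  have hcL : Continuous (fun y => L (trans y g)) := by
    have : (fun y => L (trans y g)) = fun y => Lt (INT_J m (trans y g)) := by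
      funext y; rw [hLt]
    rw [this]
    exact Lt.continuous.comp hcJ
  have hgrow : ∀ y, |L (trans y g)| ≤ ‖Lt‖ * C * (1 + ‖y‖) ^ m := by
    intro y
    rw [← hLt, ← Real.norm_eq_abs]
    calc ‖Lt (INT_J m (trans y g))‖ ≤ ‖Lt‖ * ‖INT_J m (trans y g)‖ := Lt.le_opNorm _
      _ ≤ ‖Lt‖ * (C * (1 + ‖y‖) ^ m) := mul_le_mul_of_nonneg_left (hC y) (norm_nonneg _)
      _ = _ := by ring
  -- integrability of f with polynomial weight
  have hfw : Integrable (fun y => ‖f y‖ * (1 + ‖y‖) ^ m) := by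
    have h1 : ∀ y : V d, ‖‖f y‖ * (1 + ‖y‖) ^ m‖ ≤
        2 ^ m * (‖f y‖ + ‖y‖ ^ m * ‖f y‖) := by
      intro y
      rw [norm_mul, norm_norm, norm_pow]
      have h0 : ‖(1 : ℝ) + ‖y‖‖ = 1 + ‖y‖ := by
        rw [Real.norm_eq_abs, abs_of_nonneg (by positivity)]
      rw [h0]
      have h2 : (1 + ‖y‖) ^ m ≤ 2 ^ m * (1 + ‖y‖ ^ m) := by
        rcases le_total ‖y‖ 1 with h | h
        · calc (1 + ‖y‖) ^ m ≤ 2 ^ m := pow_le_pow_left₀ (by positivity) (by linarith) _
            _ ≤ 2 ^ m * (1 + ‖y‖ ^ m) := by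
              apply le_mul_of_one_le_right (by positivity)
              linarith [pow_nonneg (norm_nonneg y) m]
        · calc (1 + ‖y‖) ^ m ≤ (2 * ‖y‖) ^ m := pow_le_pow_left₀ (by positivity) (by linarith) _
            _ = 2 ^ m * ‖y‖ ^ m := by rw [mul_pow]
            _ ≤ 2 ^ m * (1 + ‖y‖ ^ m) := by
              apply mul_le_mul_of_nonneg_left _ (by positivity)
              linarith
      calc ‖f y‖ * (1 + ‖y‖) ^ m ≤ ‖f y‖ * (2 ^ m * (1 + ‖y‖ ^ m)) :=
            mul_le_mul_of_nonneg_left h2 (norm_nonneg _)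
        _ = _ := by ring
    refine Integrable.mono' ((f.integrable.norm.add (f.integrable_pow_mul volume m)).const_mul (2 ^ m))
      ?_ (Eventually.of_forall h1)
    exact (f.continuous.norm.mul (by fun_prop)).aestronglyMeasurable
  have hintJ : Integrable (fun y => f y • INT_J m (trans y g)) := by
    refine Integrable.mono' (hfw.const_mul C) (f.continuous.smul hcJ).aestronglyMeasurable
      (Eventually.of_forall (fun y => ?_))
    rw [norm_smul]
    calc ‖f y‖ * ‖INT_J m (trans y g)‖ ≤ ‖f y‖ * (C * (1 + ‖y‖) ^ m) :=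
          mul_le_mul_of_nonneg_left (hC y) (norm_nonneg _)
      _ = C * (‖f y‖ * (1 + ‖y‖) ^ m) := by ring
  have hJh : INT_J m h = ∫ y, f y • INT_J m (trans y g) := by
    refine INT_Y_ext m _ _ (fun i x => ?_)
    rw [← (INT_ev m i x).integral_comp_comm hintJ, INT_ev_J, INT_iter f g h hh, ← integral_smul]
    refine integral_congr_ae (Eventually.of_forall (fun y => ?_))
    simp only [map_smul]
    rw [INT_ev_J, INT_trans_iter, smul_comm]
  have hcomm : Lt (∫ y, f y • INT_J m (trans y g)) = ∫ y, f y * L (trans y g) := by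
    rw [← Lt.integral_comp_comm hintJ]
    refine integral_congr_ae (Eventually.of_forall (fun y => ?_))
    simp only [map_smul, smul_eq_mul, hLt]
  refine ⟨hcL, ⟨‖Lt‖ * C, m, hgrow⟩, ?_, ?_⟩
  · have h1 := Lt.integrable_comp hintJ
    refine h1.congr (Eventually.of_forall (fun y => ?_))
    simp only [map_smul, smul_eq_mul, hLt]
  · rw [← hcomm, ← hJh, hLt]

end

end Pool.Agent.H43.DPC
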