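import Pool.Agent.H43.DPC.Targets

open MeasureTheory SchwartzMap Filter Topology
open scoped ENNReal ContDiff

namespace Pool.Agent.H43.DPC

noncomputable section

/-- ONE: the one-point function vanishes. -/
theorem ONE (hCTN : T_CTN) (hHOL : T_HOL) (hINV : T_INV) (hGAU : T_GAU)
    (hCON : T_CON) (hINT : T_INT) : ∀ (d : ℕ) (μ : Measure (SD d)) [IsProbabilityMeasure μ],
    IsMAO μ → TransInv μ → ∀ a : ℝ, SelfSim a μ → 0 < a → ∀ f : Fin 1 → S d, moment μ f = 0 := by
  intro d μ _ hM hT a hS ha f
  obtain ⟨hH1, hH2, _⟩ := hHOL d μ hM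
  obtain ⟨C, m, hC0, hC⟩ := hCTN d μ hM 1 le_rfl
  obtain ⟨M, hMm⟩ := hH2 1
  -- the linear functional
  let L0 : S d →ₗ[ℝ] ℝ :=
    { toFun := fun u => M (fun _ : Fin 1 => u)
      map_add' := fun u v => by
        have := M.map_update_add (fun _ : Fin 1 => u) 0 u v
        have h1 : ∀ w : S d, Function.update (fun _ : Fin 1 => u) 0 w = fun _ => w := by
          intro w; funext i; fin_cases i; simp
        rwa [h1, h1, h1] at this
      map_smul' := fun c u => by
        have := M.map_update_smul (fun _ : Fin 1 => u) 0 c u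
        have h1 : ∀ w : S d, Function.update (fun _ : Fin 1 => u) 0 w = fun _ => w := by
          intro w; funext i; fin_cases i; simp
        rwa [h1, h1] at this }
  have hL0 : ∀ u, L0 u = moment μ (fun _ : Fin 1 => u) := fun u => hMm _
  have hbd : ∀ u, |L0 u| ≤ C * pm m u := by
    intro u
    rw [hL0]
    refine (hH1 1 le_rfl _).trans ?_
    rw [Fin.prod_univ_one]
    exact hC u
  have hcont : Continuous L0 := by
    refine Seminorm.continuous_from_bounded (schwartz_withSeminorms ℝ (V d) ℝ)
      (norm_withSeminorms ℝ ℝ) L0 (fun _ => ?_)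
    refine ⟨Finset.Iic (m, m), ⟨C, hC0⟩, fun u => ?_⟩
    exact hbd u
  let L : S d →L[ℝ] ℝ := ⟨L0, hcont⟩
  have hLtr : ∀ (h : V d) (u : S d), L (trans h u) = L u := by
    intro h u
    change L0 (trans h u) = L0 u
    rw [hL0, hL0]
    exact hINV.moment_trans d μ hT 1 h (fun _ => u)
  have hLdil : ∀ (t : ℝˣ) (u : S d), 0 < (t : ℝ) → L (dil t u) = (t : ℝ) ^ ((d : ℝ) - a) * L u := by
    intro t u ht
    change L0 (dil t u) = _ * L0 u
    rw [hL0, hL0, hINV.moment_dil d μ a hS 1 t ht (fun _ => u), pow_one]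
  -- L (f * g) = L g * int f
  have hconv : ∀ u v w : S d, (∀ x, w x = ∫ y, u y * v (x - y)) → L w = L v * ∫ y, u y := by
    intro u v w hw
    have h1 := (hINT d L u v w hw).2.2.2
    rw [h1]
    have h2 : (fun y => u y * L (trans y v)) = fun y => u y * L v := by
      funext y; rw [hLtr]
    rw [h2, integral_mul_const, mul_comm]
  have hsymm : ∀ u v : S d, L v * ∫ y, u y = L u * ∫ y, v y := by
    intro u v
    obtain ⟨w, hw⟩ := hCON d u v
    rw [← hconv u v w hw]
    refine hconv v u w (fun x => ?_)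
    rw [hw x]
    have := integral_sub_left_eq_self (fun y => v y * u (x - y)) volume x
    rw [← this]
    refine integral_congr_ae (Eventually.of_forall (fun y => ?_))
    simp only [sub_sub_cancel]
    ring
  obtain ⟨g, hg⟩ := hGAU.exists_S d 1 one_pos
  -- int g > 0
  have hgpos : 0 < ∫ y, g y := by
    refine (integral_pos_iff_support_of_nonneg (fun y => ?_) g.integrable).2 ?_
    · rw [hg, gau]; positivity
    · have : Function.support (⇑g) = Set.univ := by
        ext y
        simp only [Function.mem_support, Set.mem_univ, iff_true]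
        rw [hg, gau]; positivity
      rw [this]
      exact Measure.measure_univ_pos.2 (NeZero.ne _)
  set c : ℝ := L g / ∫ y, g y with hc
  have hLf : ∀ u, L u = c * ∫ y, u y := by
    intro u
    have := hsymm u g
    rw [hc]
    field_simp
    linarith
  -- dilation by 2
  let t : ℝˣ := Units.mk0 2 two_ne_zero
  have ht : (t : ℝ) = 2 := rfl
  have h2 := hLdil t g (by rw [ht]; norm_num)
  rw [hLf (dil t g), hLf g, ht] at h2
  have h3 : ∫ y, (dil t g) y = (2 : ℝ) ^ d * ∫ y, g y := by
    have h4 : (fun y => (dil t g) y) = fun y => g ((2 : ℝ)⁻¹ • y) := by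
      funext y
      rfl
    rw [h4, Measure.integral_comp_smul]
    rw [finrank_euclideanSpace_fin, smul_eq_mul]
    congr 1
    rw [inv_pow, inv_inv, abs_of_pos (by positivity)]
  rw [h3] at h2
  have h5 : (2 : ℝ) ^ ((d : ℝ) - a) < (2 : ℝ) ^ d := by
    rw [← Real.rpow_natCast]
    exact Real.rpow_lt_rpow_of_exponent_lt (by norm_num) (by linarith)
  have hc0 : c = 0 := by
    by_contra hne
    have h6 : (2 : ℝ) ^ d = (2 : ℝ) ^ ((d : ℝ) - a) := by
      have h7 : (c * ∫ y, g y) * ((2 : ℝ) ^ d - (2 : ℝ) ^ ((d : ℝ) - a)) = 0 := by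
        linear_combination h2
      rcases mul_eq_zero.1 h7 with h8 | h8
      · exact absurd h8 (mul_ne_zero hne hgpos.ne')
      · linarith
    linarith
  have h9 : f = fun _ => f 0 := by
    funext i; fin_cases i; rfl
  rw [h9, ← hL0]
  change L (f 0) = 0
  rw [hLf, hc0, zero_mul]

end

end Pool.Agent.H43.DPC
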