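import Pool.Agent.H43.DPC.Asm2
import Pool.Agent.H43.DPC.ONE
import Pool.Agent.H43.DPC.GRB
import Pool.Agent.H43.DPC.INT
import Pool.Agent.H1.DPC.MCT
import Pool.Agent.H11.DPC.DOM
import Pool.Agent.H14.DPC.SEP
import Pool.Agent.H15.DPC.CUT
import Pool.Agent.H15.DPC.FAT
import Pool.Agent.H15.DPC.LAT
import Pool.Agent.H36.DPC.GAU
import Pool.Agent.H36.DPC.TWO
import Pool.Agent.H37.DPC.GRA
import Pool.Agent.H38.DPC.CONV
import Pool.Agent.H38.DPC.ZER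
import Pool.Agent.H46.DPC.UNQ
import Pool.Agent.H63.DPC.GRO
import Pool.Agent.H67.DPC.CTN
import Pool.Agent.H68.DPC.INV
import Pool.Agent.H68.DPC.UNI
import Pool.Agent.H70.DPC.CPL
import Pool.Agent.H70.DPC.EXT
import Pool.Agent.H70.DPC.SEM
import Pool.Agent.H70.DPC.WSP
import Pool.Agent.H72.DPC.HOM
import Pool.Agent.H77.DPC.KER
import Pool.Agent.H82.DPC.APX
import Pool.Agent.H98.DPC.HOL
import Pool.Agent.H54.DPC.LIM
import Pool.Agent.H37.DPC.RAD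

/-! All rows put together. -/

open MeasureTheory SchwartzMap Filter Topology
open scoped ENNReal ContDiff

namespace Pool.Agent.H43.DPC

theorem final {d : ℕ} (a : ℝ) (ha0 : 0 < a) (ha : 2 * a < d) (μ : Measure (SD d)) [IsProbabilityMeasure μ]
    (hT : TransInv μ) (hS : SelfSim a μ) :
    (IsMAO μ → ∀ (n : ℕ) (s : (Fin n → V d) → ℝ), Cond1 μ n s → NegPartLocInt n s →
      Cond2 n s ∧ Cond3 μ n s) ∧
    (IsMAO μ → RotInv μ → ∃ c : ℝ, 0 ≤ c ∧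
      Cond1 μ 2 (fun x => c * ‖x 0 - x 1‖ ^ (-(2 * a))) ∧
      Cond2 2 (fun x : Fin 2 → V d => c * ‖x 0 - x 1‖ ^ (-(2 * a))) ∧
      Cond3 μ 2 (fun x => c * ‖x 0 - x 1‖ ^ (-(2 * a)))) ∧
    (RotInv μ → (IsDPC μ ↔ IsMAO μ ∧ IsDC μ ∧ ∀ n : ℕ, 3 ≤ n → (EvenLaw μ → Even n) →
      ∃ s : (Fin n → V d) → ℝ, Cond1 μ n s ∧ NegPartLocInt n s)) := by
  have hCPL : T_CPL := Pool.Agent.H70.DPC.CPL
  have hCTN : T_CTN := CTN hCPL
  have hHOL : T_HOL := HOL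
  have hMCT : T_MCT := Pool.Agent.H1.DPC.MCT hCTN hHOL
  have hINV : T_INV := INV
  have hLAT : T_LAT := LAT
  have hSEM : T_SEM := Pool.Agent.H70.DPC.SEM
  have hUNI : T_UNI := UNI hCPL hCTN hINV hLAT hSEM
  have hGRA : T_GRA := GRA
  have hGRB : T_GRB := GRB hGRA
  have hLIM' : T_LIM := Pool.Agent.H54.DPC.LIM hHOL hLAT hUNI hGRB
  have hRAD : T_RAD := RAD
  have hWSP : T_WSP := Pool.Agent.H70.DPC.WSP hLAT
  have hSEP : T_SEP := Pool.Agent.H14.DPC.SEP hLAT hWSP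
  have hFAT : T_FAT := FAT hLIM' hSEP hWSP
  have hDOM : T_DOM := Pool.Agent.H11.DPC.DOM hLIM' hSEP hWSP
  have hHOM : T_HOM := HOM hINV hWSP
  have hGRO : T_GRO := GRO hWSP
  have hCUT : T_CUT := CUT
  have hEXT : T_EXT := Pool.Agent.H70.DPC.EXT hMCT hDOM hHOM hGRO hCUT
  have hZER : T_ZER := Pool.Agent.H38.DPC.ZER hINV
  have hGAU : T_GAU := Pool.Agent.H36.DPC.GAU
  have hCON : T_CON := Pool.Agent.H38.DPC.CON
  have hINT : T_INT := INT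
  have hAPX : T_APX := Pool.Agent.H82.DPC.APX hGAU
  have hUNQ : T_UNQ := UNQ hGAU hCON hINT hAPX hRAD
  have hKER : T_KER := Pool.Agent.H77.DPC.KER
  have hTWO : T_TWO := Pool.Agent.H36.DPC.TWO hCTN hHOL hINV hUNQ hKER hGAU hWSP
  have hONE : T_ONE := ONE hCTN hHOL hINV hGAU hCON hINT
  exact assembly2 hFAT hEXT hZER hTWO hONE a ha0 ha μ hT hS

end Pool.Agent.H43.DPC
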