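import Pool.Agent.H43.DPC.Defs2

/-! Targets of the rows: one proposition per row. -/

open MeasureTheory SchwartzMap Filter Topology
open scoped ENNReal ContDiff

namespace Pool.Agent.H43.DPC

noncomputable section

/-- CPL: the Schwartz space is complete. -/
def T_CPL : Prop := ∀ d : ℕ, CompleteSpace (S d)

/-- CTN: the `L^n` norm is a continuous seminorm. -/
def T_CTN : Prop := ∀ (d : ℕ) (μ : Measure (SD d)) [IsProbabilityMeasure μ], IsMAO μ →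
  ∀ n : ℕ, 1 ≤ n → ∃ (C : ℝ) (m : ℕ), 0 ≤ C ∧ ∀ f : S d, Nn μ n f ≤ C * pm m f

/-- HOL: Hölder and multilinearity. -/
def T_HOL : Prop := ∀ (d : ℕ) (μ : Measure (SD d)) [IsProbabilityMeasure μ], IsMAO μ →
  (∀ (n : ℕ), 1 ≤ n → ∀ f : Fin n → S d, |moment μ f| ≤ ∏ i, Nn μ n (f i)) ∧
  (∀ (n : ℕ), ∃ M : MultilinearMap ℝ (fun _ : Fin n => S d) ℝ, ∀ f, M f = moment μ f) ∧
  (∀ (n : ℕ), 1 ≤ n → ∀ f g : S d, Nn μ n (f + g) ≤ Nn μ n f + Nn μ n g)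

/-- MCT: continuity of the moments. -/
def T_MCT : Prop := ∀ (d : ℕ) (μ : Measure (SD d)) [IsProbabilityMeasure μ], IsMAO μ →
  ∀ (n : ℕ) (g : ℕ → Fin n → S d) (f : Fin n → S d),
    (∀ i, Tendsto (fun m => g m i) atTop (𝓝 (f i))) →
    Tendsto (fun m => moment μ (g m)) atTop (𝓝 (moment μ f))

/-- INV: consequences of invariance. -/
structure T_INV : Prop where
  Nn_trans : ∀ (d : ℕ) (μ : Measure (SD d)), TransInv μ → ∀ (n : ℕ) (h : V d) (f : S d),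
    Nn μ n (trans h f) = Nn μ n f
  Nn_dil : ∀ (d : ℕ) (μ : Measure (SD d)) (a : ℝ), SelfSim a μ → ∀ (n : ℕ) (t : ℝˣ),
    0 < (t : ℝ) → ∀ f : S d, Nn μ n (dil t f) = (t : ℝ) ^ ((d : ℝ) - a) * Nn μ n f
  moment_trans : ∀ (d : ℕ) (μ : Measure (SD d)), TransInv μ → ∀ (n : ℕ) (h : V d)
    (f : Fin n → S d), moment μ (fun i => trans h (f i)) = moment μ f
  moment_rot : ∀ (d : ℕ) (μ : Measure (SD d)), RotInv μ → ∀ (n : ℕ) (R : V d ≃ₗᵢ[ℝ] V d)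
    (f : Fin n → S d), moment μ (fun i => rot R (f i)) = moment μ f
  moment_dil : ∀ (d : ℕ) (μ : Measure (SD d)) (a : ℝ), SelfSim a μ → ∀ (n : ℕ) (t : ℝˣ),
    0 < (t : ℝ) → ∀ f : Fin n → S d,
      moment μ (fun i => dil t (f i)) = ((t : ℝ) ^ ((d : ℝ) - a)) ^ n * moment μ f
  moment_odd : ∀ (d : ℕ) (μ : Measure (SD d)), EvenLaw μ → ∀ (n : ℕ), Odd n →
    ∀ f : Fin n → S d, moment μ f = 0

/-- LAT: the lattice partition of unity. -/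
structure T_LAT : Prop where
  contDiff : ∀ (d : ℕ) (t : ℝ) (k : Fin d → ℤ), ContDiff ℝ ∞ (cell t k)
  compact : ∀ (d : ℕ) (t : ℝ) (_ : 0 < t) (k : Fin d → ℤ), HasCompactSupport (cell t k)
  nonneg : ∀ (d : ℕ) (t : ℝ) (k : Fin d → ℤ) (x : V d), 0 ≤ cell t k x
  tsupport : ∀ (d : ℕ) (t : ℝ) (_ : 0 < t) (k : Fin d → ℤ) (x : V d),
    x ∈ tsupport (cell t k) → ∀ j : Fin d, |x j - t * k j| ≤ t
  cut_apply : ∀ (d : ℕ) (t : ℝ) (_ : 0 < t) (k : Fin d → ℤ) (f : S d) (x : V d),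
    cut t k f x = cell t k x * f x
  sum_le_one : ∀ (d : ℕ) (t : ℝ) (K : ℕ) (x : V d), ∑ k ∈ box d K, cell t k x ≤ 1
  sum_eq_one : ∀ (d : ℕ) (m R : ℕ) (x : V d), (∀ j, |x j| ≤ R) →
    ∑ k ∈ box d (R * (m + 1)), cell ((m + 1 : ℝ)⁻¹) k x = 1
  sum_cut : ∀ (d : ℕ) (m R : ℕ) (f : S d), (∀ x, f x ≠ 0 → ∀ j, |x j| ≤ R) →
    ∑ k ∈ box d (R * (m + 1)), cut ((m + 1 : ℝ)⁻¹) k f = f
  near_symm : ∀ (d : ℕ) (k l : Fin d → ℤ), Near k l → Near l k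
  near_card : ∀ (d K : ℕ) (k : Fin d → ℤ), ((box d K).filter (Near k)).card ≤ 5 ^ d
  box_card : ∀ (d K : ℕ), (box d K).card = (2 * K + 1) ^ d
  disjoint : ∀ (d : ℕ) (t : ℝ) (_ : 0 < t) (k l : Fin d → ℤ), ¬ Near k l →
    Disjoint (_root_.tsupport (cell t k)) (_root_.tsupport (cell t l))

/-- SEM: uniform seminorm bound for the rescaled pieces. -/
def T_SEM : Prop := ∀ (d : ℕ) (f : S d) (χ : V d → ℝ), ContDiff ℝ ∞ χ → HasCompactSupport χ →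
  ∀ m : ℕ, ∃ C : ℝ, ∀ (t : ℝˣ) (v : V d), 0 < (t : ℝ) → (t : ℝ) ≤ 1 →
    pm m (smulLeftCLM ℝ χ (dil t⁻¹ (trans (-((t : ℝ) • v)) f))) ≤ C

/-- UNI: uniform bound for the norms of the cells. -/
def T_UNI : Prop := ∀ (d : ℕ) (μ : Measure (SD d)) [IsProbabilityMeasure μ], IsMAO μ →
  TransInv μ → ∀ a : ℝ, SelfSim a μ → ∀ n : ℕ, 1 ≤ n → ∀ f : S d,
    ∃ C : ℝ, 0 ≤ C ∧ ∀ (t : ℝ) (k : Fin d → ℤ), 0 < t → t ≤ 1 →
      Nn μ n (cut t k f) ≤ C * t ^ ((d : ℝ) - a)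

/-- vertices touched by a set of pairs -/
def touched {n : ℕ} (G : Finset (Fin n × Fin n)) : Finset (Fin n) :=
  Finset.univ.filter (fun i => ∃ j, (i, j) ∈ G ∨ (j, i) ∈ G)

/-- GRA: counting configurations that are close along a graph (dominating sets). -/
def T_GRA : Prop := ∀ (κ : Type) [DecidableEq κ] (n : ℕ) (c : κ → κ → Prop) [DecidableRel c],
  (∀ k l, c k l → c l k) → ∀ (K : Finset κ) (k0 : κ), k0 ∈ K → ∀ B : ℕ, 1 ≤ B →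
  (∀ k ∈ K, (K.filter (c k)).card ≤ B) → ∀ G : Finset (Fin n × Fin n),
  (∀ e ∈ G, e.1 ≠ e.2) → G.Nonempty →
    2 ≤ (touched G).card ∧
    ((((Fintype.piFinset (fun i : Fin n => if i ∈ touched G then K else {k0})).filter
      (fun k => ∀ e ∈ G, c (k e.1) (k e.2))).card : ℕ) : ℝ) ≤
      (B : ℝ) ^ n * (K.card : ℝ) ^ ((touched G).card / 2)

/-- GRB: the inclusion-exclusion bound. -/
def T_GRB : Prop := ∀ (κ : Type) [DecidableEq κ] (n : ℕ) (c : κ → κ → Prop) [DecidableRel c],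
  (∀ k l, c k l → c l k) → ∀ (K : Finset κ) (B : ℕ), 1 ≤ B →
  (∀ k ∈ K, (K.filter (c k)).card ≤ B) → ∀ (W : Type) [AddCommGroup W] [Module ℝ W]
    (M : MultilinearMap ℝ (fun _ : Fin n => W) ℝ) (N : W → ℝ), (∀ w, 0 ≤ N w) →
    (∀ w, |M w| ≤ ∏ i, N (w i)) → ∀ (X : Fin n → κ → W) (A A' : ℝ), 0 ≤ A →
    (∀ i, ∀ k ∈ K, N (X i k) ≤ A) → (∀ i, N (∑ k ∈ K, X i k) ≤ A') →
    A ^ 2 * K.card ≤ 1 →
    |M (fun i => ∑ k ∈ K, X i k) -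
      ∑ k ∈ (Fintype.piFinset (fun _ : Fin n => K)).filter
        (fun k => ∀ i j, i ≠ j → ¬ c (k i) (k j)), M (fun i => X i (k i))| ≤
      2 ^ (n ^ 2) * (B : ℝ) ^ n * (max 1 A') ^ n * (A ^ 2 * K.card)

/-- LIM: the separated part of the moment tends to the moment. -/
def T_LIM : Prop := ∀ (d : ℕ) (μ : Measure (SD d)) [IsProbabilityMeasure μ], IsMAO μ →
  TransInv μ → ∀ a : ℝ, SelfSim a μ → 2 * a < d → ∀ n : ℕ, 1 ≤ n → ∀ (R : ℕ) (f : Fin n → S d),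
    (∀ i x, f i x ≠ 0 → ∀ j, |x j| ≤ R) →
    Tendsto (fun m : ℕ => ∑ k ∈ sepBox d n (R * (m + 1)),
      moment μ (fun i => cut ((m + 1 : ℝ)⁻¹) (k i) (f i))) atTop (𝓝 (moment μ f))

/-- SEP: the separated part is an integral. -/
def T_SEP : Prop := ∀ (d : ℕ) (μ : Measure (SD d)) (n : ℕ) (s : (Fin n → V d) → ℝ),
  Cond1 μ n s → ∀ (R m : ℕ) (f : Fin n → S d), (∀ i, HasCompactSupport (f i)) →
    IntegrableOn (fun x => s x * (∏ i, f i (x i)) * wsep d n R m x) (Diag d n)ᶜ ∧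
    ∑ k ∈ sepBox d n (R * (m + 1)), moment μ (fun i => cut ((m + 1 : ℝ)⁻¹) (k i) (f i)) =
      ∫ x in (Diag d n)ᶜ, s x * (∏ i, f i (x i)) * wsep d n R m x

/-- WSP: the weights. -/
structure T_WSP : Prop where
  isClosed_Diag : ∀ (d n : ℕ), IsClosed (Diag d n)
  nonneg : ∀ (d n R m : ℕ) (x : Fin n → V d), 0 ≤ wsep d n R m x
  le_one : ∀ (d n R m : ℕ) (x : Fin n → V d), wsep d n R m x ≤ 1
  continuous : ∀ (d n R m : ℕ), Continuous (wsep d n R m)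
  eventually_eq_one : ∀ (d n R : ℕ) (x : Fin n → V d), x ∉ Diag d n → (∀ i j, |x i j| ≤ R) →
    ∀ᶠ m in atTop, wsep d n R m x = 1

/-- FAT: condition 1 and local integrability of the negative part give condition 2. -/
def T_FAT : Prop := ∀ (d : ℕ) (μ : Measure (SD d)) [IsProbabilityMeasure μ], IsMAO μ →
  TransInv μ → ∀ a : ℝ, SelfSim a μ → 2 * a < d → ∀ n : ℕ, 1 ≤ n →
  ∀ s : (Fin n → V d) → ℝ, Cond1 μ n s →
    LocallyIntegrable (fun x => max (-(s x)) 0) (volume.restrict (Diag d n)ᶜ) → Cond2 n s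

/-- DOM: conditions 1 and 2 give the formula for compactly supported test functions. -/
def T_DOM : Prop := ∀ (d : ℕ) (μ : Measure (SD d)) [IsProbabilityMeasure μ], IsMAO μ →
  TransInv μ → ∀ a : ℝ, SelfSim a μ → 2 * a < d → ∀ n : ℕ, 1 ≤ n →
  ∀ s : (Fin n → V d) → ℝ, Cond1 μ n s → Cond2 n s →
  ∀ f : Fin n → S d, (∀ i, HasCompactSupport (f i)) →
    moment μ f = ∫ x in (Diag d n)ᶜ, s x * ∏ i, f i (x i)

/-- HOM: homogeneity of the smooth function. -/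
def T_HOM : Prop := ∀ (d : ℕ) (μ : Measure (SD d)) (a : ℝ), SelfSim a μ → ∀ (n : ℕ)
  (s : (Fin n → V d) → ℝ), Cond1 μ n s → ∀ (t : ℝ), 0 < t → ∀ x : Fin n → V d,
    x ∉ Diag d n → s (t • x) = t ^ (-(n * a)) * s x

/-- GRO: integrability against Schwartz functions. -/
def T_GRO : Prop := ∀ (d n : ℕ) (s : (Fin n → V d) → ℝ), ContinuousOn s (Diag d n)ᶜ →
  Cond2 n s → ∀ b : ℝ,
  (∀ (t : ℝ) (x : Fin n → V d), 0 < t → x ∉ Diag d n → s (t • x) = t ^ b * s x) →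
  ∀ f : Fin n → S d, IntegrableOn (fun x => s x * ∏ i, f i (x i)) (Diag d n)ᶜ

/-- CUT: cutoffs in the Schwartz space. -/
def T_CUT : Prop := ∀ d : ℕ, ∃ θ : ℕ → S d → S d, (∀ m f, HasCompactSupport (θ m f)) ∧
  (∀ m f x, |θ m f x| ≤ |f x|) ∧ (∀ f x, Tendsto (fun m => θ m f x) atTop (𝓝 (f x))) ∧
  (∀ f, Tendsto (fun m => θ m f) atTop (𝓝 f))

/-- EXT: conditions 1 and 2 give condition 3. -/
def T_EXT : Prop := ∀ (d : ℕ) (μ : Measure (SD d)) [IsProbabilityMeasure μ], IsMAO μ →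
  TransInv μ → ∀ a : ℝ, SelfSim a μ → 2 * a < d → ∀ n : ℕ, 1 ≤ n →
  ∀ s : (Fin n → V d) → ℝ, Cond1 μ n s → Cond2 n s → Cond3 μ n s

/-- ZER: odd `n` and `n = 0`. -/
structure T_ZER : Prop where
  odd : ∀ (d : ℕ) (μ : Measure (SD d)) [IsProbabilityMeasure μ], EvenLaw μ → ∀ (n : ℕ), Odd n →
    Cond1 μ n (fun _ => 0) ∧ Cond2 n (fun _ : Fin n → V d => (0 : ℝ)) ∧ Cond3 μ n (fun _ => 0)
  zero : ∀ (d : ℕ) (μ : Measure (SD d)) [IsProbabilityMeasure μ],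
    Cond1 μ 0 (fun _ => 1) ∧ Cond2 0 (fun _ : Fin 0 → V d => (1 : ℝ)) ∧ Cond3 μ 0 (fun _ => 1)
  zero' : ∀ (d : ℕ) (μ : Measure (SD d)) [IsProbabilityMeasure μ] (s : (Fin 0 → V d) → ℝ),
    Cond1 μ 0 s → Cond2 0 s ∧ Cond3 μ 0 s
  neg_part : ∀ (d n : ℕ) (s : (Fin n → V d) → ℝ), Cond2 n s →
    LocallyIntegrable (fun x => max (-(s x)) 0) (volume.restrict (Diag d n)ᶜ)

/-- GAU: heat kernels. -/
structure T_GAU : Prop where
  semigroup : ∀ (d : ℕ) (s t : ℝ), 0 < s → 0 < t → ∀ x : V d,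
    ∫ y, gau d s y * gau d t (x - y) = gau d (s + t) x
  exists_S : ∀ (d : ℕ) (t : ℝ), 0 < t → ∃ g : S d, ∀ x, g x = gau d t x

/-- CON: convolutions of Schwartz functions. -/
def T_CON : Prop := ∀ (d : ℕ) (f g : S d), ∃ h : S d, ∀ x, h x = ∫ y, f y * g (x - y)

/-- INT: a tempered distribution commutes with the convolution integral. -/
def T_INT : Prop := ∀ (d : ℕ) (L : S d →L[ℝ] ℝ) (f g h : S d),
  (∀ x, h x = ∫ y, f y * g (x - y)) →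
    Continuous (fun y => L (trans y g)) ∧ (∃ (C : ℝ) (m : ℕ), ∀ y, |L (trans y g)| ≤ C * (1 + ‖y‖) ^ m) ∧
    Integrable (fun y => f y * L (trans y g)) ∧ L h = ∫ y, f y * L (trans y g)

/-- APX: heat approximation in the Schwartz space. -/
def T_APX : Prop := ∀ (d : ℕ) (f : S d) (F : ℝ → S d),
  (∀ t, 0 < t → ∀ x, F t x = ∫ y, f y * gau d t (x - y)) → Tendsto F (𝓝[>] 0) (𝓝 f)

/-- RAD: a radial function is determined by its Gaussian integrals. -/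
def T_RAD : Prop := ∀ (d : ℕ), 1 ≤ d → ∀ (D : V d → ℝ), Continuous D →
  (∃ (C : ℝ) (m : ℕ), ∀ x, |D x| ≤ C * (1 + ‖x‖) ^ m) → (∀ x y, ‖x‖ = ‖y‖ → D x = D y) →
  (∀ σ : ℝ, 0 < σ → ∫ y, D y * Real.exp (-(σ * ‖y‖ ^ 2)) = 0) → ∀ x, D x = 0

/-- UNQ: uniqueness of the invariant homogeneous two-point form. -/
def T_UNQ : Prop := ∀ (d : ℕ), 1 ≤ d → ∀ (a : ℝ) (B B' : S d →ₗ[ℝ] S d →ₗ[ℝ] ℝ), TPF d a B →
  TPF d a B' → ∀ g : S d, (∀ x, g x = gau d 1 x) → B' g g ≠ 0 →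
    ∃ c : ℝ, ∀ f f', B f f' = c * B' f f'

/-- KER: the form with kernel `|x-y|^{-2a}`. -/
def T_KER : Prop := ∀ (d : ℕ), 1 ≤ d → ∀ (a : ℝ), 0 < a → 2 * a < d →
  ∃ B' : S d →ₗ[ℝ] S d →ₗ[ℝ] ℝ, TPF d a B' ∧
    (∀ f g : S d, Integrable
      (fun z : V d × V d => ‖z.1 - z.2‖ ^ (-(2 * a)) * (f z.1 * g z.2))) ∧
    (∀ f g : S d, B' f g = ∫ z : V d × V d, ‖z.1 - z.2‖ ^ (-(2 * a)) * (f z.1 * g z.2)) ∧
    ∀ g : S d, (∀ x, g x = gau d 1 x) → 0 < B' g g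

/-- TWO: the case `n = 2`. -/
def T_TWO : Prop := ∀ (d : ℕ) (μ : Measure (SD d)) [IsProbabilityMeasure μ], IsMAO μ →
  TransInv μ → ∀ a : ℝ, SelfSim a μ → 0 < a → 2 * a < d → RotInv μ →
    ∃ c : ℝ, 0 ≤ c ∧ Cond1 μ 2 (fun x => c * ‖x 0 - x 1‖ ^ (-(2 * a))) ∧
      Cond2 2 (fun x : Fin 2 → V d => c * ‖x 0 - x 1‖ ^ (-(2 * a))) ∧
      Cond3 μ 2 (fun x => c * ‖x 0 - x 1‖ ^ (-(2 * a)))

end

end Pool.Agent.H43.DPC
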