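import Pool.Agent.H43.DPC.Targets

/-! Assembly of the rows (all rows as hypotheses). -/

open MeasureTheory SchwartzMap Filter Topology
open scoped ENNReal ContDiff

namespace Pool.Agent.H43.DPC

noncomputable section

theorem assembly (hFAT : T_FAT) (hEXT : T_EXT) (hZER : T_ZER) (hTWO : T_TWO)
    {d : ℕ} (a : ℝ) (ha0 : 0 < a) (ha : 2 * a < d) (μ : Measure (SD d)) [IsProbabilityMeasure μ]
    (hM : IsMAO μ) (hT : TransInv μ) (hS : SelfSim a μ) :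
    (∀ (n : ℕ) (s : (Fin n → V d) → ℝ), Cond1 μ n s →
      LocallyIntegrable (fun x => max (-(s x)) 0) (volume.restrict (Diag d n)ᶜ) →
      Cond2 n s ∧ Cond3 μ n s) ∧
    (RotInv μ → ∃ c : ℝ, 0 ≤ c ∧ Cond1 μ 2 (fun x => c * ‖x 0 - x 1‖ ^ (-(2 * a))) ∧
      Cond2 2 (fun x : Fin 2 → V d => c * ‖x 0 - x 1‖ ^ (-(2 * a))) ∧
      Cond3 μ 2 (fun x => c * ‖x 0 - x 1‖ ^ (-(2 * a)))) ∧
    (RotInv μ → EvenLaw μ → (IsDPC μ ↔ IsDC μ ∧ ∀ n : ℕ, Even n → 4 ≤ n →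
      ∃ s : (Fin n → V d) → ℝ, Cond1 μ n s ∧
        LocallyIntegrable (fun x => max (-(s x)) 0) (volume.restrict (Diag d n)ᶜ))) := by
  have key : ∀ (n : ℕ) (s : (Fin n → V d) → ℝ), Cond1 μ n s →
      LocallyIntegrable (fun x => max (-(s x)) 0) (volume.restrict (Diag d n)ᶜ) →
      Cond2 n s ∧ Cond3 μ n s := by
    intro n s h1 hneg
    rcases Nat.eq_zero_or_pos n with rfl | hn
    · exact hZER.zero' d μ s h1
    · have h2 := hFAT d μ hM hT a hS ha n hn s h1 hneg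
      exact ⟨h2, hEXT d μ hM hT a hS ha n hn s h1 h2⟩
  refine ⟨key, fun hR => hTWO d μ hM hT a hS ha0 ha hR, ?_⟩
  intro hR hE
  constructor
  · rintro ⟨_, hDC, h⟩
    refine ⟨hDC, fun n _ _ => ?_⟩
    obtain ⟨s, h1, h2, _⟩ := h n
    exact ⟨s, h1, hZER.neg_part d n s h2⟩
  · rintro ⟨hDC, h⟩
    refine ⟨hM, hDC, fun n => ?_⟩
    rcases Nat.even_or_odd n with he | ho
    · by_cases h4 : 4 ≤ n
      · obtain ⟨s, h1, hneg⟩ := h n he h4
        obtain ⟨h2, h3⟩ := key n s h1 hneg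
        exact ⟨s, h1, h2, h3⟩
      · interval_cases n
        · obtain ⟨h1, h2, h3⟩ := hZER.zero d μ
          exact ⟨_, h1, h2, h3⟩
        · exact absurd he (by decide)
        · obtain ⟨c, _, h1, h2, h3⟩ := hTWO d μ hM hT a hS ha0 ha hR
          exact ⟨_, h1, h2, h3⟩
        · exact absurd he (by decide)
    · obtain ⟨h1, h2, h3⟩ := hZER.odd d μ hE n ho
      exact ⟨_, h1, h2, h3⟩

end

end Pool.Agent.H43.DPC
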