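import Pool.Agent.H43.DPC.Targets

/-! Assembly of the rows, final form (all rows as hypotheses). -/

open MeasureTheory SchwartzMap Filter Topology
open scoped ENNReal ContDiff

namespace Pool.Agent.H43.DPC

noncomputable section

/-- The negative part of `s` is locally integrable on `ℝ^{nd}` (off `Diag_n`). -/
def NegPartLocInt {d : ℕ} (n : ℕ) (s : (Fin n → V d) → ℝ) : Prop :=
  LocallyIntegrable (fun x => max (-(s x)) 0) (volume.restrict (Diag d n)ᶜ)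

/-- The statement that the one-point function vanishes. -/
def T_ONE : Prop := ∀ (d : ℕ) (μ : Measure (SD d)) [IsProbabilityMeasure μ], IsMAO μ →
  TransInv μ → ∀ a : ℝ, SelfSim a μ → 0 < a → ∀ f : Fin 1 → S d, moment μ f = 0

theorem one_conds {d : ℕ} (μ : Measure (SD d)) (h : ∀ f : Fin 1 → S d, moment μ f = 0) :
    Cond1 μ 1 (fun _ => 0) ∧ Cond2 1 (fun _ : Fin 1 → V d => (0 : ℝ)) ∧ Cond3 μ 1 (fun _ => 0) := by
  refine ⟨⟨contDiffOn_const, fun f _ _ => ?_⟩, ?_, fun f => ⟨?_, ?_⟩⟩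
  · rw [h f]; simp
  · exact locallyIntegrable_zero
  · simp only [zero_mul]
    exact integrableOn_zero
  · rw [h f]; simp

theorem assembly2 (hFAT : T_FAT) (hEXT : T_EXT) (hZER : T_ZER) (hTWO : T_TWO) (hONE : T_ONE)
    {d : ℕ} (a : ℝ) (ha0 : 0 < a) (ha : 2 * a < d) (μ : Measure (SD d)) [IsProbabilityMeasure μ]
    (hT : TransInv μ) (hS : SelfSim a μ) :
    (IsMAO μ → ∀ (n : ℕ) (s : (Fin n → V d) → ℝ), Cond1 μ n s → NegPartLocInt n s →
      Cond2 n s ∧ Cond3 μ n s) ∧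
    (IsMAO μ → RotInv μ → ∃ c : ℝ, 0 ≤ c ∧ Cond1 μ 2 (fun x => c * ‖x 0 - x 1‖ ^ (-(2 * a))) ∧
      Cond2 2 (fun x : Fin 2 → V d => c * ‖x 0 - x 1‖ ^ (-(2 * a))) ∧
      Cond3 μ 2 (fun x => c * ‖x 0 - x 1‖ ^ (-(2 * a)))) ∧
    (RotInv μ → (IsDPC μ ↔ IsMAO μ ∧ IsDC μ ∧ ∀ n : ℕ, 3 ≤ n → (EvenLaw μ → Even n) →
      ∃ s : (Fin n → V d) → ℝ, Cond1 μ n s ∧ NegPartLocInt n s)) := by
  have key : IsMAO μ → ∀ (n : ℕ) (s : (Fin n → V d) → ℝ), Cond1 μ n s → NegPartLocInt n s →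
      Cond2 n s ∧ Cond3 μ n s := by
    intro hM n s h1 hneg
    rcases Nat.eq_zero_or_pos n with rfl | hn
    · exact hZER.zero' d μ s h1
    · have h2 := hFAT d μ hM hT a hS ha n hn s h1 hneg
      exact ⟨h2, hEXT d μ hM hT a hS ha n hn s h1 h2⟩
  refine ⟨key, fun hM hR => hTWO d μ hM hT a hS ha0 ha hR, ?_⟩
  intro hR
  constructor
  · rintro ⟨hM, hDC, h⟩
    refine ⟨hM, hDC, fun n _ _ => ?_⟩
    obtain ⟨s, h1, h2, _⟩ := h n
    exact ⟨s, h1, hZER.neg_part d n s h2⟩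
  · rintro ⟨hM, hDC, h⟩
    refine ⟨hM, hDC, fun n => ?_⟩
    by_cases hE : EvenLaw μ ∧ Odd n
    · obtain ⟨h1, h2, h3⟩ := hZER.odd d μ hE.1 n hE.2
      exact ⟨_, h1, h2, h3⟩
    · by_cases h3 : 3 ≤ n
      · obtain ⟨s, h1, hneg⟩ := h n h3 (fun he => by
          by_contra hne
          exact hE ⟨he, Nat.not_even_iff_odd.1 hne⟩)
        obtain ⟨h2, h3⟩ := key hM n s h1 hneg
        exact ⟨s, h1, h2, h3⟩
      · interval_cases n
        · obtain ⟨h1, h2, h3⟩ := hZER.zero d μ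
          exact ⟨_, h1, h2, h3⟩
        · obtain ⟨h1, h2, h3⟩ := one_conds μ (hONE d μ hM hT a hS ha0)
          exact ⟨_, h1, h2, h3⟩
        · obtain ⟨c, _, h1, h2, h3⟩ := hTWO d μ hM hT a hS ha0 ha hR
          exact ⟨_, h1, h2, h3⟩

end

end Pool.Agent.H43.DPC
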