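import Mathlib

/-!
# MP_47c37b: definitions

Random tempered distributions on `ℝ^d` (probability measures on `S'(ℝ^d)` with the Borel σ-algebra
of the weak-* topology), moments, and the conditions MAO, DC, 1, 2, 3, DPC of the problem file.
-/

open MeasureTheory SchwartzMap Filter Topology
open scoped ENNReal ContDiff

namespace Pool.Agent.H43.DPC

noncomputable section

/-- `ℝ^d`. -/
abbrev V (d : ℕ) : Type := EuclideanSpace ℝ (Fin d)

/-- Real Schwartz functions on `ℝ^d`. -/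
abbrev S (d : ℕ) : Type := 𝓢(V d, ℝ)

/-- `S'(ℝ^d)` with its weak-* topology. -/
abbrev SD (d : ℕ) : Type := WeakDual ℝ (S d)

/-- `S'(ℝ^d)` carries the Borel σ-algebra of its weak-* topology. -/
instance instMeasurableSpaceSD (d : ℕ) : MeasurableSpace (SD d) := borel (SD d)

instance instBorelSpaceSD (d : ℕ) : BorelSpace (SD d) := ⟨rfl⟩

/-- The dual action of a continuous linear map `A` on test functions: `(dualMap A φ)(f) = φ(A f)`. -/
def dualMap {d : ℕ} (A : S d →L[ℝ] S d) (φ : SD d) : SD d :=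
  StrongDual.toWeakDual ((WeakDual.toStrongDual φ).comp A)

/-- `(trans h f)(x) = f (x - h)`. -/
def trans {d : ℕ} (h : V d) : S d →L[ℝ] S d := compSubConstCLM ℝ h

/-- `(rot R f)(x) = f (R x)`, for a linear isometry `R`, that is `R ∈ O(d)`. -/
def rot {d : ℕ} (R : V d ≃ₗᵢ[ℝ] V d) : S d →L[ℝ] S d :=
  compCLMOfContinuousLinearEquiv ℝ R.toContinuousLinearEquiv

/-- `(dil t f)(x) = f (t⁻¹ x)`, for `t ≠ 0`. -/
def dil {d : ℕ} (t : ℝˣ) : S d →L[ℝ] S d :=
  compCLMOfContinuousLinearEquiv ℝ (ContinuousLinearEquiv.smulLeft (t⁻¹) : V d ≃L[ℝ] V d)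

/-- The law `μ` is translation invariant. -/
def TransInv {d : ℕ} (μ : Measure (SD d)) : Prop :=
  ∀ h : V d, μ.map (dualMap (trans h)) = μ

/-- The law `μ` is invariant under `O(d)`. -/
def RotInv {d : ℕ} (μ : Measure (SD d)) : Prop :=
  ∀ R : V d ≃ₗᵢ[ℝ] V d, μ.map (dualMap (rot R)) = μ

/-- The law `μ` is even: `-φ` has the law of `φ`. -/
def EvenLaw {d : ℕ} (μ : Measure (SD d)) : Prop :=
  μ.map (fun φ => -φ) = μ

/-- The law `μ` is self-similar of dimension `a`: `t^a φ(t ·)` has the law of `φ` for all `t > 0`;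
tested against `f` the distribution `t^a φ(t ·)` is `t^(a-d) φ(f(t⁻¹ ·))`. -/
def SelfSim {d : ℕ} (a : ℝ) (μ : Measure (SD d)) : Prop :=
  ∀ t : ℝˣ, 0 < (t : ℝ) → μ.map (fun φ => ((t : ℝ) ^ (a - d)) • dualMap (dil t) φ) = μ

/-- `μ` is MAO: `φ(f) ∈ L^p(μ)` for all test functions `f` and all finite `p`. -/
def IsMAO {d : ℕ} (μ : Measure (SD d)) : Prop :=
  ∀ (f : S d) (p : ℝ≥0∞), p ≠ ⊤ → MemLp (fun φ : SD d => φ f) p μ

/-- The moment `S_n(f_1,…,f_n)`. -/
def moment {d : ℕ} (μ : Measure (SD d)) {n : ℕ} (f : Fin n → S d) : ℝ :=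
  ∫ φ : SD d, ∏ i, φ (f i) ∂μ

/-- `μ` is DC: no other MAO probability measure has the same moments. -/
def IsDC {d : ℕ} (μ : Measure (SD d)) : Prop :=
  ∀ μ' : Measure (SD d), IsProbabilityMeasure μ' → IsMAO μ' →
    (∀ (n : ℕ) (f : Fin n → S d), moment μ' f = moment μ f) → μ' = μ

/-- The set of configurations with two equal points. -/
def Diag (d n : ℕ) : Set (Fin n → V d) := {x | ∃ i j, i ≠ j ∧ x i = x j}

/-- Condition 1 with the function `s`: off `Diag_n` the distribution `S_n` is the smooth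
function `s` (tested on tensor products with disjoint compact supports). -/
structure Cond1 {d : ℕ} (μ : Measure (SD d)) (n : ℕ) (s : (Fin n → V d) → ℝ) : Prop where
  smooth : ContDiffOn ℝ ∞ s (Diag d n)ᶜ
  eq : ∀ f : Fin n → S d, (∀ i, HasCompactSupport (f i)) →
    (∀ i j, i ≠ j → Disjoint (tsupport (f i)) (tsupport (f j))) →
    moment μ f = ∫ x in (Diag d n)ᶜ, s x * ∏ i, f i (x i)

/-- Condition 2: the function is locally integrable on `ℝ^{nd}`. -/
def Cond2 {d : ℕ} (n : ℕ) (s : (Fin n → V d) → ℝ) : Prop :=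
  LocallyIntegrable s (volume.restrict (Diag d n)ᶜ)

/-- Condition 3. -/
def Cond3 {d : ℕ} (μ : Measure (SD d)) (n : ℕ) (s : (Fin n → V d) → ℝ) : Prop :=
  ∀ f : Fin n → S d, IntegrableOn (fun x => s x * ∏ i, f i (x i)) (Diag d n)ᶜ ∧
    moment μ f = ∫ x in (Diag d n)ᶜ, s x * ∏ i, f i (x i)

/-- `μ` is DPC. -/
def IsDPC {d : ℕ} (μ : Measure (SD d)) : Prop :=
  IsMAO μ ∧ IsDC μ ∧ ∀ n : ℕ, ∃ s, Cond1 μ n s ∧ Cond2 n s ∧ Cond3 μ n s

end

end Pool.Agent.H43.DPC
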