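import Pool.Agent.H43.DPC.Defs

/-! Auxiliary definitions used only in the proof. -/

open MeasureTheory SchwartzMap Filter Topology
open scoped ENNReal ContDiff

namespace Pool.Agent.H43.DPC

noncomputable section

/-- the `L^n` norm of `φ(f)` -/
def Nn {d : ℕ} (μ : Measure (SD d)) (n : ℕ) (f : S d) : ℝ :=
  (eLpNorm (fun φ : SD d => φ f) n μ).toReal

/-- the `m`-th standard seminorm of a Schwartz function -/
def pm {d : ℕ} (m : ℕ) (f : S d) : ℝ :=
  ((Finset.Iic (m, m)).sup (schwartzSeminormFamily ℝ (V d) ℝ)) f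

/-- the bump whose integer translates sum to one -/
def chi (d : ℕ) (x : V d) : ℝ :=
  ∏ j, (Real.smoothTransition (x j + 1) - Real.smoothTransition (x j))

/-- integer points of `ℝ^d` -/
def lat {d : ℕ} (k : Fin d → ℤ) : V d := WithLp.toLp 2 (fun j => (k j : ℝ))

/-- cells of side `t` -/
def cell {d : ℕ} (t : ℝ) (k : Fin d → ℤ) (x : V d) : ℝ := chi d (t⁻¹ • x - lat k)

/-- the part of a test function in a cell -/
def cut {d : ℕ} (t : ℝ) (k : Fin d → ℤ) (f : S d) : S d := smulLeftCLM ℝ (cell t k) f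

/-- two cells are near -/
def Near {d : ℕ} (k l : Fin d → ℤ) : Prop := ∀ j, |k j - l j| ≤ 2

instance {d : ℕ} : DecidableRel (Near (d := d)) := fun k l => by unfold Near; infer_instance

/-- a box of cells -/
def box (d K : ℕ) : Finset (Fin d → ℤ) := Fintype.piFinset fun _ => Finset.Icc (-(K : ℤ)) K

/-- `n`-tuples of cells no two of which are near -/
def sepBox (d n K : ℕ) : Finset (Fin n → Fin d → ℤ) :=
  (Fintype.piFinset fun _ => box d K).filter (fun k => ∀ i j, i ≠ j → ¬ Near (k i) (k j))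

/-- the weight of the separated part at scale `1/(m+1)` -/
def wsep (d n R m : ℕ) (x : Fin n → V d) : ℝ :=
  ∑ k ∈ sepBox d n (R * (m + 1)), ∏ i, cell ((m + 1 : ℝ)⁻¹) (k i) (x i)

/-- the heat kernel on `ℝ^d` -/
def gau (d : ℕ) (t : ℝ) (x : V d) : ℝ :=
  (2 * Real.pi * t) ^ (-(d : ℝ) / 2) * Real.exp (-(‖x‖ ^ 2 / (2 * t)))

/-- abstract two-point forms -/
structure TPF (d : ℕ) (a : ℝ) (B : S d →ₗ[ℝ] S d →ₗ[ℝ] ℝ) : Prop where
  bound : ∃ (C : ℝ) (m : ℕ), 0 ≤ C ∧ ∀ f g, |B f g| ≤ C * pm m f * pm m g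
  trans : ∀ (h : V d) f g, B (trans h f) (trans h g) = B f g
  rot : ∀ (R : V d ≃ₗᵢ[ℝ] V d) f g, B (rot R f) (rot R g) = B f g
  dil : ∀ (t : ℝˣ) f g, 0 < (t : ℝ) → B (dil t f) (dil t g) = ((t : ℝ) ^ ((d : ℝ) - a)) ^ 2 * B f g

end

end Pool.Agent.H43.DPC
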