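import Pool.Agent.H43.DPC.Final

/-!
# MP_47c37b: the definitions of the statement

`V d = ℝ^d`, `S d`, `SD d` (real Schwartz functions, their weak-* dual with the Borel σ-algebra),
`moment`, `IsMAO`, `IsDC`, `Diag`, `Cond2`, `Cond3`, `NegPartLocInt` are in `Defs` and `Asm2`.
-/

open MeasureTheory SchwartzMap Filter Topology
open scoped ENNReal ContDiff

namespace Pool.Agent.H43.DPCS

open Pool.Agent.H43.DPC

variable {d : ℕ}

/-- `T : S' → S'` is the map `(T φ)(f) = c φ(f ∘ g)`. -/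
def IsPullback (g : V d → V d) (c : ℝ) (T : SD d → SD d) : Prop :=
  ∃ D : S d → S d, (∀ f x, D f x = f (g x)) ∧ ∀ φ f, T φ f = c * φ (D f)

/-- The law `μ` is translation invariant. -/
def TransInv (μ : Measure (SD d)) : Prop :=
  ∀ (h : V d) (T : SD d → SD d), IsPullback (fun x => x - h) 1 T → μ.map T = μ

/-- The law `μ` is invariant under `O(d)`. -/
def RotInv (μ : Measure (SD d)) : Prop :=
  ∀ (R : V d ≃ₗᵢ[ℝ] V d) (T : SD d → SD d), IsPullback (fun x => R x) 1 T → μ.map T = μ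

/-- The law `μ` is even: `-φ` has the law of `φ`. -/
def EvenLaw (μ : Measure (SD d)) : Prop :=
  ∀ T : SD d → SD d, IsPullback (fun x => x) (-1) T → μ.map T = μ

/-- The law `μ` is self-similar of dimension `a`: `t^a φ(t ·)` has the law of `φ` for all `t > 0`;
tested against `f` the distribution `t^a φ(t ·)` is `t^(a-d) φ(f(t⁻¹ ·))`. -/
def SelfSim (a : ℝ) (μ : Measure (SD d)) : Prop :=
  ∀ (t : ℝ) (T : SD d → SD d), 0 < t → IsPullback (fun x => t⁻¹ • x) (t ^ (a - d)) T → μ.map T = μ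

/-- `S_n(f_1,…,f_n) = ∫ s f_1 ⊗ … ⊗ f_n` for compactly supported `f_i` with disjoint supports. -/
def OffDiag (μ : Measure (SD d)) (n : ℕ) (s : (Fin n → V d) → ℝ) : Prop :=
  ∀ f : Fin n → S d, (∀ i, HasCompactSupport (f i)) →
    (∀ i j, i ≠ j → Disjoint (tsupport (f i)) (tsupport (f j))) →
    moment μ f = ∫ x in (Diag d n)ᶜ, s x * ∏ i, f i (x i)

/-- Condition 1 with the function `s`: off `Diag_n` the distribution `S_n` is the smooth
function `s` (tested on tensor products with disjoint compact supports). -/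
def Cond1 (μ : Measure (SD d)) (n : ℕ) (s : (Fin n → V d) → ℝ) : Prop :=
  ContDiffOn ℝ ∞ s (Diag d n)ᶜ ∧ OffDiag μ n s

/-- Conditions 1, 2, 3 with the function `s`. -/
def Cond123 (μ : Measure (SD d)) (n : ℕ) (s : (Fin n → V d) → ℝ) : Prop :=
  Cond1 μ n s ∧ Cond2 n s ∧ Cond3 μ n s

/-- `μ` is DPC. -/
def IsDPC (μ : Measure (SD d)) : Prop :=
  IsMAO μ ∧ IsDC μ ∧ ∀ n : ℕ, ∃ s, Cond123 μ n s

/-- the function `c |x_0 - x_1|^(-2a)` -/
noncomputable def powKer (a c : ℝ) (x : Fin 2 → V d) : ℝ := c * ‖x 0 - x 1‖ ^ (-(2 * a))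

theorem isPullback_dual (A : S d →L[ℝ] S d) (g : V d → V d) (hA : ∀ f x, A f x = f (g x)) :
    IsPullback g 1 (dualMap A) :=
  ⟨A, hA, fun φ f => (one_mul _).symm⟩

theorem transInv_of (μ : Measure (SD d)) (h : TransInv μ) : Pool.Agent.H43.DPC.TransInv μ :=
  fun v => h v _ (isPullback_dual _ _ (fun _ _ => rfl))

theorem rotInv_of (μ : Measure (SD d)) (h : RotInv μ) : Pool.Agent.H43.DPC.RotInv μ :=
  fun R => h R _ (isPullback_dual _ _ (fun _ _ => rfl))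

theorem selfSim_of (a : ℝ) (μ : Measure (SD d)) (h : SelfSim a μ) :
    Pool.Agent.H43.DPC.SelfSim a μ := by
  intro t ht
  refine h t _ ht ⟨dil t, fun f x => ?_, fun φ f => ?_⟩
  · change f ((t⁻¹ : ℝˣ) • x) = f ((t : ℝ)⁻¹ • x)
    rw [Units.smul_def, Units.val_inv_eq_inv_val]
  · rfl

theorem evenLaw_iff (μ : Measure (SD d)) : EvenLaw μ ↔ Pool.Agent.H43.DPC.EvenLaw μ := by
  constructor
  · intro h
    refine h _ ⟨fun f => f, fun _ _ => rfl, fun φ f => ?_⟩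
    rw [neg_one_mul]
    rfl
  · rintro h T ⟨D, hD, hT⟩
    have hT' : T = fun φ => -φ := by
      funext φ
      refine DFunLike.ext _ _ (fun f => ?_)
      have hDf : D f = f := SchwartzMap.ext (fun x => hD f x)
      rw [hT, hDf, neg_one_mul]
      rfl
    rw [hT']
    exact h

theorem cond1_iff (μ : Measure (SD d)) (n : ℕ) (s : (Fin n → V d) → ℝ) :
    Cond1 μ n s ↔ Pool.Agent.H43.DPC.Cond1 μ n s :=
  ⟨fun h => ⟨h.1, h.2⟩, fun h => ⟨h.smooth, h.eq⟩⟩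

theorem isDPC_iff (μ : Measure (SD d)) : IsDPC μ ↔ Pool.Agent.H43.DPC.IsDPC μ := by
  unfold IsDPC Pool.Agent.H43.DPC.IsDPC Cond123
  simp only [cond1_iff]

theorem final' (a : ℝ) (ha0 : 0 < a) (ha : 2 * a < d) (μ : Measure (SD d))
    [IsProbabilityMeasure μ] (hT : TransInv μ) (hS : SelfSim a μ) :
    (IsMAO μ → ∀ (n : ℕ) (s : (Fin n → V d) → ℝ), Cond1 μ n s → NegPartLocInt n s →
      Cond123 μ n s) ∧
    (IsMAO μ → RotInv μ → ∃ c : ℝ, 0 ≤ c ∧ Cond123 μ 2 (powKer a c)) ∧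
    (RotInv μ → (IsDPC μ ↔ IsMAO μ ∧ IsDC μ ∧ ∀ n : ℕ, 3 ≤ n → (EvenLaw μ → Even n) →
      ∃ s : (Fin n → V d) → ℝ, Cond1 μ n s ∧ NegPartLocInt n s)) := by
  obtain ⟨h1, h2, h3⟩ := final a ha0 ha μ (transInv_of μ hT) (selfSim_of a μ hS)
  refine ⟨fun hM n s hc hn => ⟨hc, h1 hM n s ((cond1_iff μ n s).1 hc) hn⟩, fun hM hR => ?_,
    fun hR => ?_⟩
  · obtain ⟨c, hc, hc1, hc2, hc3⟩ := h2 hM (rotInv_of μ hR)
    exact ⟨c, hc, (cond1_iff μ 2 _).2 hc1, hc2, hc3⟩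
  · have := h3 (rotInv_of μ hR)
    rw [isDPC_iff, this]
    simp only [cond1_iff, evenLaw_iff]

end Pool.Agent.H43.DPCS
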